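import Mathlib

/-!
# Masking by junk: a linear oracle with adaptive junk

`T` is a set of positions with levels, `J : T → Bool` the junk.  For every `v : V` the contents
`h v J` of the positions are the junk, except at the positions with `Bl v p`, where the content may
also be a function of the junk at lower levels.  A question is answered by `β q + e q · h v J`.  The
average over `v` and `J` of the success of an adaptive algorithm is at most its success in an ideal
process, where the answers to independent questions are coins, plus `t / |V|`.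
-/

set_option autoImplicit false
set_option linter.unusedSectionVars false

namespace Pool.Agent.APS

/-- bits -/
def zb (b : Bool) : ZMod 2 := if b = true then 1 else 0

theorem zb_not (b : Bool) : zb (!b) = zb b + 1 := by cases b <;> decide

theorem z2 (a : ZMod 2) : a = 0 ∨ a = 1 := by revert a; decide

/-- the character -/
def chi (a : ZMod 2) : ℝ := if a = 0 then 1 else -1

theorem chi_add (a b : ZMod 2) : chi (a + b) = chi a * chi b := by
  rcases z2 a with rfl | rfl <;> rcases z2 b with rfl | rfl
  · simp [chi]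
  · simp [chi]
  · simp [chi]
  · have : (1 : ZMod 2) + 1 = 0 := by decide
    rw [this]
    simp [chi]

theorem chi_zero : chi 0 = 1 := by simp [chi]

theorem chi_one : chi 1 = -1 := by simp [chi]

/-- the indicator of `a = b` -/
theorem ind_eq (a b : ZMod 2) : (if a = b then (1 : ℝ) else 0) = (1 + chi (a + b)) / 2 := by
  rcases z2 a with rfl | rfl <;> rcases z2 b with rfl | rfl
  · simp [chi]
  · simp [chi]
  · simp [chi]
  · have : (1 : ZMod 2) + 1 = 0 := by decide
    rw [this]
    simp [chi]

section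

variable {T V Q Cf : Type} [Fintype T] [DecidableEq T] [Fintype V] [DecidableEq V]
  (lev : T → ℕ) (Bl : V → T → Prop) (h : V → (T → Bool) → T → ZMod 2)
  (e : Q → T → ZMod 2) (β : Q → ZMod 2) (nx : Cf → ZMod 2 → Cf) (qd : Cf → Q)

/-- the hypotheses -/
structure Hyp : Prop where
  disj : ∀ v v' p, Bl v p → Bl v' p → v = v'
  junk : ∀ v p J, ¬ Bl v p → h v J p = zb (J p)
  loc : ∀ v p J J', J p = J' p → (∀ p', lev p' < lev p → J p' = J' p') → h v J p = h v J' p

/-- value of a functional -/
def dt (x y : T → ZMod 2) : ZMod 2 := ∑ p, x p * y p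

theorem dt_add (x y z : T → ZMod 2) : dt (x + y) z = dt x z + dt y z := by
  unfold dt
  rw [← Finset.sum_add_distrib]
  exact Finset.sum_congr rfl fun p _ => by rw [Pi.add_apply]; ring

theorem dt_zero (z : T → ZMod 2) : dt (0 : T → ZMod 2) z = 0 := by
  unfold dt
  exact Finset.sum_eq_zero fun p _ => by rw [Pi.zero_apply, zero_mul]

theorem dt_smul (c : ZMod 2) (x z : T → ZMod 2) : dt (c • x) z = c * dt x z := by
  unfold dt
  rw [Finset.mul_sum]
  exact Finset.sum_congr rfl fun p _ => by rw [Pi.smul_apply, smul_eq_mul]; ring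

/-- the dangerous blocks for a space of functionals -/
def Dang (W : Submodule (ZMod 2) (T → ZMod 2)) (v : V) : Prop :=
  ∃ x ∈ W, ∃ p0, x p0 ≠ 0 ∧ (∀ p, x p ≠ 0 → lev p ≤ lev p0) ∧
    ∀ p, x p ≠ 0 → lev p = lev p0 → Bl v p

open Classical in
/-- the number of dangerous blocks -/
theorem card_dang (hh : Hyp lev Bl h) (W : Submodule (ZMod 2) (T → ZMod 2)) :
    (Finset.univ.filter fun v : V => Dang lev Bl W v).card ≤ Module.finrank (ZMod 2) W := by
  classical
  set D := Finset.univ.filter fun v : V => Dang lev Bl W v with hD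
  have h1 : ∀ v : D, ∃ x ∈ W, ∃ p0, x p0 ≠ 0 ∧ (∀ p, x p ≠ 0 → lev p ≤ lev p0) ∧
      ∀ p, x p ≠ 0 → lev p = lev p0 → Bl v.1 p := fun v => (Finset.mem_filter.1 v.2).2
  choose x hxW p0 hp0 hlev hbl using h1
  have hind : LinearIndependent (ZMod 2) (fun v : D => (⟨x v, hxW v⟩ : W)) := by
    rw [linearIndependent_iff']
    intro s g hs
    by_contra hne
    push Not at hne
    obtain ⟨v1, hv1, hg1⟩ := hne
    obtain ⟨v0, hv0, hmax⟩ := Finset.exists_max_image (s.filter fun v => g v ≠ 0)
      (fun v => lev (p0 v)) ⟨v1, Finset.mem_filter.2 ⟨hv1, hg1⟩⟩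
    rw [Finset.mem_filter] at hv0
    have h2 : (∑ v ∈ s, g v • x v) (p0 v0) = 0 := by
      have h3 := congrArg (fun w : W => (w : T → ZMod 2) (p0 v0)) hs
      simp only [Submodule.coe_sum, Submodule.coe_smul, Submodule.coe_zero, Pi.zero_apply] at h3
      exact h3
    rw [Finset.sum_apply, Finset.sum_eq_single v0] at h2
    · rw [Pi.smul_apply, smul_eq_mul] at h2
      rcases mul_eq_zero.1 h2 with h4 | h4
      · exact hv0.2 h4
      · exact hp0 v0 h4
    · intro v hv hne
      rw [Pi.smul_apply, smul_eq_mul]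
      by_cases hg : g v = 0
      · rw [hg, zero_mul]
      · by_cases hx : x v (p0 v0) = 0
        · rw [hx, mul_zero]
        · exfalso
          have h5 := hlev v (p0 v0) hx
          have h6 := hmax v (Finset.mem_filter.2 ⟨hv, hg⟩)
          have h7 := hbl v (p0 v0) hx (by omega)
          have h8 := hbl v0 (p0 v0) (hp0 v0) rfl
          exact hne (Subtype.ext (hh.disj _ _ _ h7 h8))
    · intro hn
      exact absurd hv0.1 hn
  have h2 := hind.fintype_card_le_finrank
  rwa [Fintype.card_coe] at h2

/-- a functional that is not dangerous is balanced -/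
theorem balanced (hh : Hyp lev Bl h) {W : Submodule (ZMod 2) (T → ZMod 2)} {v : V}
    (hv : ¬ Dang lev Bl W v) {x : T → ZMod 2} (hx : x ∈ W) (hx0 : x ≠ 0) :
    ∑ J : T → Bool, chi (dt x (h v J)) = 0 := by
  classical
  obtain ⟨p1, hp1⟩ := Function.ne_iff.1 hx0
  obtain ⟨p2, hp2, hmax⟩ := Finset.exists_max_image (Finset.univ.filter fun p => x p ≠ 0) lev
    ⟨p1, Finset.mem_filter.2 ⟨Finset.mem_univ _, hp1⟩⟩
  rw [Finset.mem_filter] at hp2
  have h1 : ∃ p, x p ≠ 0 ∧ lev p = lev p2 ∧ ¬ Bl v p := by
    by_contra hc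
    push Not at hc
    exact hv ⟨x, hx, p2, hp2.2, fun p hp =>
      hmax p (Finset.mem_filter.2 ⟨Finset.mem_univ _, hp⟩), hc⟩
  obtain ⟨p0, h2, h3, h4⟩ := h1
  have h5 : ∀ p, x p ≠ 0 → lev p ≤ lev p0 := fun p hp => by
    rw [h3]
    exact hmax p (Finset.mem_filter.2 ⟨Finset.mem_univ _, hp⟩)
  set fl : (T → Bool) → (T → Bool) := fun J => Function.update J p0 (!J p0) with hfl
  have hfl2 : ∀ J, fl (fl J) = J := by
    intro J
    funext p
    by_cases hp : p = p0
    · subst hp
      simp [hfl]
    · simp [hfl, Function.update_of_ne hp]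
  have hflip : ∀ J, dt x (h v (fl J)) = dt x (h v J) + 1 := by
    intro J
    have g1 : ∀ p, p ≠ p0 → x p * h v (fl J) p = x p * h v J p := by
      intro p hp
      by_cases hxp : x p = 0
      · rw [hxp, zero_mul, zero_mul]
      · rw [hh.loc v p (fl J) J (by simp [hfl, Function.update_of_ne hp]) ?_]
        intro p' hp'
        have : p' ≠ p0 := by
          rintro rfl
          have := h5 p hxp
          omega
        simp [hfl, Function.update_of_ne this]
    have g2 : x p0 * h v (fl J) p0 = x p0 * h v J p0 + 1 := by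
      rw [hh.junk v p0 _ h4, hh.junk v p0 _ h4]
      have g3 : (fl J) p0 = !J p0 := by simp [hfl]
      rw [g3, zb_not]
      have g4 : x p0 = 1 := (z2 (x p0)).resolve_left h2
      rw [g4]
      ring
    unfold dt
    rw [← Finset.add_sum_erase _ _ (Finset.mem_univ p0),
      ← Finset.add_sum_erase (a := p0) _ (fun p => x p * h v J p) (Finset.mem_univ p0), g2,
      Finset.sum_congr rfl fun p hp => g1 p (Finset.ne_of_mem_erase hp)]
    ring
  have h6 : ∑ J : T → Bool, chi (dt x (h v J)) = ∑ J : T → Bool, chi (dt x (h v (fl J))) :=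
    (Equiv.sum_comp (⟨fl, fl, hfl2, hfl2⟩ : (T → Bool) ≃ (T → Bool))
      (fun J => chi (dt x (h v J)))).symm
  have h7 : ∀ J, chi (dt x (h v (fl J))) = - chi (dt x (h v J)) := by
    intro J
    rw [hflip, chi_add, chi_one]
    ring
  rw [Finset.sum_congr rfl fun J _ => h7 J, Finset.sum_neg_distrib] at h6
  linarith

/-! ### states -/

/-- the span of the functionals of a state -/
def Ws (σ : List (Q × ZMod 2)) : Submodule (ZMod 2) (T → ZMod 2) :=
  Submodule.span (ZMod 2) {x | ∃ p ∈ σ, x = e p.1}

/-- the affine consequences of a state -/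
def Wa (σ : List (Q × ZMod 2)) : Submodule (ZMod 2) ((T → ZMod 2) × ZMod 2) :=
  Submodule.span (ZMod 2) {x | ∃ p ∈ σ, x = (e p.1, p.2)}

theorem Ws_cons (q : Q) (a : ZMod 2) (σ : List (Q × ZMod 2)) :
    Ws e ((q, a) :: σ) = Submodule.span (ZMod 2) {e q} ⊔ Ws e σ := by
  unfold Ws
  rw [← Submodule.span_union]
  congr 1
  ext x
  simp only [List.mem_cons, Set.mem_setOf_eq, Set.singleton_union, Set.mem_insert_iff]
  constructor
  · rintro ⟨p, rfl | hp, rfl⟩
    · exact Or.inl rfl
    · exact Or.inr ⟨p, hp, rfl⟩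
  · rintro (rfl | ⟨p, hp, rfl⟩)
    · exact ⟨(q, a), Or.inl rfl, rfl⟩
    · exact ⟨p, Or.inr hp, rfl⟩

theorem Ws_mono (q : Q) (a : ZMod 2) (σ : List (Q × ZMod 2)) : Ws e σ ≤ Ws e ((q, a) :: σ) := by
  rw [Ws_cons]
  exact le_sup_right

theorem mem_Ws_head (q : Q) (a : ZMod 2) (σ : List (Q × ZMod 2)) : e q ∈ Ws e ((q, a) :: σ) :=
  Submodule.subset_span ⟨(q, a), List.mem_cons_self .., rfl⟩

theorem finrank_Ws (σ : List (Q × ZMod 2)) : Module.finrank (ZMod 2) (Ws e σ) ≤ σ.length := by
  induction σ with
  | nil =>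
    have : Ws e ([] : List (Q × ZMod 2)) = ⊥ := by
      unfold Ws
      simp
    rw [this, finrank_bot]
    exact Nat.zero_le _
  | cons p σ ih =>
    obtain ⟨q, a⟩ := p
    rw [Ws_cons, List.length_cons]
    refine (Submodule.finrank_add_le_finrank_add_finrank _ _).trans ?_
    have := finrank_span_le_card (R := ZMod 2) ({e q} : Set (T → ZMod 2))
    simp only [Set.toFinset_singleton, Finset.card_singleton] at this
    omega

theorem Wa_fst {σ : List (Q × ZMod 2)} {x : T → ZMod 2} {a : ZMod 2} (hx : (x, a) ∈ Wa e σ) :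
    x ∈ Ws e σ := by
  have h1 : (x, a) ∈ (Ws e σ).comap (LinearMap.fst (ZMod 2) (T → ZMod 2) (ZMod 2)) := by
    refine Submodule.span_le.2 ?_ hx
    rintro y ⟨p, hp, rfl⟩
    exact Submodule.subset_span ⟨p, hp, rfl⟩
  exact h1

theorem Ws_lift {σ : List (Q × ZMod 2)} {x : T → ZMod 2} (hx : x ∈ Ws e σ) :
    ∃ a, (x, a) ∈ Wa e σ := by
  have h1 : x ∈ (Wa e σ).map (LinearMap.fst (ZMod 2) (T → ZMod 2) (ZMod 2)) := by
    refine Submodule.span_le.2 ?_ hx
    rintro y ⟨p, hp, rfl⟩
    exact ⟨(e p.1, p.2), Submodule.subset_span ⟨p, hp, rfl⟩, rfl⟩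
  obtain ⟨⟨y, a⟩, hy, rfl⟩ := h1
  exact ⟨a, hy⟩

/-- the contents are consistent with the state -/
def Cons (v : V) (J : T → Bool) (σ : List (Q × ZMod 2)) : Prop :=
  ∀ p ∈ σ, dt (e p.1) (h v J) = p.2

theorem Cons_Wa {v : V} {J : T → Bool} {σ : List (Q × ZMod 2)} (hc : Cons h e v J σ)
    {x : T → ZMod 2} {a : ZMod 2} (hx : (x, a) ∈ Wa e σ) : dt x (h v J) = a := by
  have key : ∀ y ∈ Wa e σ, dt y.1 (h v J) = y.2 := by
    intro y hy
    refine Submodule.span_induction (p := fun y _ => dt y.1 (h v J) = y.2) ?_ ?_ ?_ ?_ hy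
    · rintro y ⟨p, hp, rfl⟩
      exact hc p hp
    · exact dt_zero _
    · intro y z _ _ hy hz
      show dt (y.1 + z.1) _ = y.2 + z.2
      rw [dt_add, hy, hz]
    · intro c y _ hy
      show dt (c • y.1) _ = c • y.2
      rw [dt_smul, hy, smul_eq_mul]
  exact key _ hx

theorem cons_nil (v : V) (J : T → Bool) : Cons h e v J [] :=
  fun p hp => absurd hp (List.not_mem_nil)

theorem cons_cons (v : V) (J : T → Bool) (q : Q) (a : ZMod 2) (σ : List (Q × ZMod 2)) :
    Cons h e v J ((q, a) :: σ) ↔ dt (e q) (h v J) = a ∧ Cons h e v J σ := by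
  unfold Cons
  rw [List.forall_mem_cons]

/-- independent states -/
def Ind : List (Q × ZMod 2) → Prop
  | [] => True
  | (q, _) :: σ => e q ∉ Ws e σ ∧ Ind σ

open Classical in
/-- signed count of the consistent junk -/
noncomputable def FF (v : V) (σ : List (Q × ZMod 2)) (y : T → ZMod 2) : ℝ :=
  ∑ J : T → Bool, (if Cons h e v J σ then 1 else 0) * chi (dt y (h v J))

theorem FF_cons (v : V) (q : Q) (a : ZMod 2) (σ : List (Q × ZMod 2)) (y : T → ZMod 2) :
    2 * FF h e v ((q, a) :: σ) y = FF h e v σ y + chi a * FF h e v σ (y + e q) := by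
  classical
  unfold FF
  rw [Finset.mul_sum, Finset.mul_sum, ← Finset.sum_add_distrib]
  refine Finset.sum_congr rfl fun J _ => ?_
  rw [dt_add, chi_add]
  have h1 : (if Cons h e v J ((q, a) :: σ) then (1 : ℝ) else 0) =
      (if dt (e q) (h v J) = a then 1 else 0) * (if Cons h e v J σ then 1 else 0) := by
    by_cases g1 : dt (e q) (h v J) = a <;> by_cases g2 : Cons h e v J σ <;>
      simp [cons_cons, g1, g2]
  rw [h1, ind_eq, chi_add]
  ring

theorem FF_zero {v : V} : ∀ (σ : List (Q × ZMod 2)) (y : T → ZMod 2),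
    (∀ x ∈ Ws e σ, ∑ J : T → Bool, chi (dt (y + x) (h v J)) = 0) → FF h e v σ y = 0 := by
  intro σ
  induction σ with
  | nil =>
    intro y hy
    have h1 := hy 0 (Submodule.zero_mem _)
    rw [add_zero] at h1
    unfold FF
    refine Eq.trans (Finset.sum_congr rfl fun J _ => ?_) h1
    rw [if_pos (cons_nil h e v J), one_mul]
  | cons p σ ih =>
    obtain ⟨q, a⟩ := p
    intro y hy
    have h1 := FF_cons h e v q a σ y
    rw [ih y fun x hx => hy x (Ws_mono e q a σ hx), ih (y + e q) fun x hx => by
      rw [add_assoc]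
      exact hy _ (Submodule.add_mem _ (mem_Ws_head e q a σ) (Ws_mono e q a σ hx))] at h1
    linarith

theorem Dang_mono {W W' : Submodule (ZMod 2) (T → ZMod 2)} (hW : W ≤ W') {v : V}
    (hd : Dang lev Bl W v) : Dang lev Bl W' v := by
  obtain ⟨x, hx, hr⟩ := hd
  exact ⟨x, hW hx, hr⟩

/-- For safe blocks the answers are uniformly distributed. -/
theorem FF_count (hh : Hyp lev Bl h) {v : V} : ∀ σ : List (Q × ZMod 2), Ind e σ →
    ¬ Dang lev Bl (Ws e σ) v →
    2 ^ σ.length * FF h e v σ 0 = Fintype.card (T → Bool) := by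
  intro σ
  induction σ with
  | nil =>
    intro _ _
    classical
    unfold FF
    rw [List.length_nil, pow_zero, one_mul]
    refine Eq.trans (Finset.sum_congr rfl fun J _ => (?_ : _ = (1 : ℝ))) ?_
    · rw [if_pos (cons_nil h e v J), dt_zero, chi_zero, one_mul]
    · rw [Finset.sum_const, Finset.card_univ, nsmul_eq_mul, mul_one]
  | cons p σ ih =>
    obtain ⟨q, a⟩ := p
    intro hi hd
    have h1 := FF_cons h e v q a σ 0
    have hd' : ¬ Dang lev Bl (Ws e σ) v := fun hc => hd (Dang_mono lev Bl (Ws_mono e q a σ) hc)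
    have h2 := ih hi.2 hd'
    have h3 : FF h e v σ (0 + e q) = 0 := by
      rw [zero_add]
      refine FF_zero h e σ _ fun x hx => ?_
      refine balanced lev Bl h hh hd (Submodule.add_mem _ (mem_Ws_head e q a σ)
        (Ws_mono e q a σ hx)) ?_
      intro h0
      apply hi.1
      have : e q = -x := eq_neg_of_add_eq_zero_left h0
      rw [this]
      exact Submodule.neg_mem _ hx
    rw [h3, mul_zero, add_zero] at h1
    rw [List.length_cons, pow_succ, mul_assoc, h1]
    exact h2

open Classical in
/-- number of the consistent junk -/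
noncomputable def cc (v : V) (σ : List (Q × ZMod 2)) : ℕ :=
  (Finset.univ.filter fun J : T → Bool => Cons h e v J σ).card

theorem cc_count (hh : Hyp lev Bl h) {v : V} {σ : List (Q × ZMod 2)} (hi : Ind e σ)
    (hd : ¬ Dang lev Bl (Ws e σ) v) :
    (2 : ℝ) ^ σ.length * cc h e v σ = Fintype.card (T → Bool) := by
  classical
  rw [← FF_count lev Bl h e hh σ hi hd]
  congr 1
  unfold cc FF
  rw [Finset.card_filter, Nat.cast_sum]
  refine Finset.sum_congr rfl fun J _ => ?_
  rw [dt_zero, chi_zero, mul_one]
  push_cast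
  rfl

/-! ### the real and the ideal process -/

/-- the real process -/
noncomputable def rt (v : V) (J : T → Bool) : ℕ → Cf → Cf
  | 0, cf => cf
  | t + 1, cf => rt v J t (nx cf (β (qd cf) + dt (e (qd cf)) (h v J)))

open Classical in
/-- the ideal process with coins -/
noncomputable def idc : List Bool → Cf → List (Q × ZMod 2) → Cf
  | [], cf, _ => cf
  | b :: z, cf, σ => if hd : ∃ a, (e (qd cf), a) ∈ Wa e σ then
      idc z (nx cf (β (qd cf) + hd.choose)) σ
    else idc z (nx cf (β (qd cf) + zb b)) ((qd cf, zb b) :: σ)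

/-- average over the coins -/
noncomputable def avg : ℕ → (List Bool → ℝ) → ℝ
  | 0, F => F []
  | t + 1, F => (avg t (fun z => F (false :: z)) + avg t (fun z => F (true :: z))) / 2

open Classical in
/-- the success of the ideal process -/
noncomputable def pr (Φ : Cf → Prop) (t : ℕ) (cf : Cf) (σ : List (Q × ZMod 2)) : ℝ :=
  avg t fun z => if Φ (idc e β nx qd z cf σ) then 1 else 0

theorem pr_dep (Φ : Cf → Prop) (t : ℕ) {cf : Cf} {σ : List (Q × ZMod 2)}
    (hd : ∃ a, (e (qd cf), a) ∈ Wa e σ) :
    pr e β nx qd Φ (t + 1) cf σ = pr e β nx qd Φ t (nx cf (β (qd cf) + hd.choose)) σ := by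
  classical
  have h1 : ∀ (b : Bool) (z : List Bool), idc e β nx qd (b :: z) cf σ =
      idc e β nx qd z (nx cf (β (qd cf) + hd.choose)) σ := by
    intro b z
    rw [idc, dif_pos hd]
  unfold pr
  rw [avg]
  simp only [h1]
  ring

theorem pr_ind (Φ : Cf → Prop) (t : ℕ) {cf : Cf} {σ : List (Q × ZMod 2)}
    (hd : ¬ ∃ a, (e (qd cf), a) ∈ Wa e σ) :
    pr e β nx qd Φ (t + 1) cf σ =
      (pr e β nx qd Φ t (nx cf (β (qd cf) + 0)) ((qd cf, 0) :: σ) +
        pr e β nx qd Φ t (nx cf (β (qd cf) + 1)) ((qd cf, 1) :: σ)) / 2 := by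
  classical
  have h1 : ∀ (b : Bool) (z : List Bool), idc e β nx qd (b :: z) cf σ =
      idc e β nx qd z (nx cf (β (qd cf) + zb b)) ((qd cf, zb b) :: σ) := by
    intro b z
    rw [idc, dif_neg hd]
  unfold pr
  rw [avg]
  simp only [h1]
  rfl

open Classical in
/-- the number of junk for which the real process is consistent and succeeds -/
noncomputable def ff (Φ : Cf → Prop) (t : ℕ) (cf : Cf) (σ : List (Q × ZMod 2)) (v : V) : ℕ :=
  (Finset.univ.filter fun J : T → Bool => Cons h e v J σ ∧ Φ (rt h e β nx qd v J t cf)).card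

open Classical in
/-- The comparison of the real with the ideal process. -/
theorem tree (hh : Hyp lev Bl h) (Φ : Cf → Prop) : ∀ (t : ℕ) (cf : Cf) (σ : List (Q × ZMod 2)),
    Ind e σ →
    (2 : ℝ) ^ σ.length * (∑ v ∈ Finset.univ.filter fun v : V => ¬ Dang lev Bl (Ws e σ) v,
      (ff h e β nx qd Φ t cf σ v : ℝ)) ≤
      Fintype.card (T → Bool) * (Fintype.card V * pr e β nx qd Φ t cf σ + σ.length + t -
        (Finset.univ.filter fun v : V => Dang lev Bl (Ws e σ) v).card) := by
  intro t
  induction t with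
  | zero =>
    intro cf σ hi
    have hfin := (card_dang lev Bl h hh (Ws e σ)).trans (finrank_Ws e σ)
    have hfin' : ((Finset.univ.filter fun v : V => Dang lev Bl (Ws e σ) v).card : ℝ) ≤
        σ.length := by exact_mod_cast hfin
    have hsplit : ((Finset.univ.filter fun v : V => Dang lev Bl (Ws e σ) v).card : ℝ) +
        (Finset.univ.filter fun v : V => ¬ Dang lev Bl (Ws e σ) v).card =
        Fintype.card V := by
      rw [← Nat.cast_add, Finset.card_filter_add_card_filter_not]
      rfl
    by_cases hΦ : Φ cf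
    · have h1 : ∀ v ∈ Finset.univ.filter fun v : V => ¬ Dang lev Bl (Ws e σ) v,
          (2 : ℝ) ^ σ.length * (ff h e β nx qd Φ 0 cf σ v : ℝ) = Fintype.card (T → Bool) := by
        intro v hv
        rw [Finset.mem_filter] at hv
        rw [← cc_count lev Bl h e hh hi hv.2]
        congr 2
        unfold ff cc
        congr 1
        apply Finset.filter_congr
        intro J _
        simp [rt, hΦ]
      rw [Finset.mul_sum, Finset.sum_congr rfl h1, Finset.sum_const, nsmul_eq_mul]
      have h2 : pr e β nx qd Φ 0 cf σ = 1 := by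
        unfold pr
        rw [avg, idc, if_pos hΦ]
      rw [h2, mul_one, Nat.cast_zero, add_zero]
      have h3 : (0 : ℝ) ≤ Fintype.card (T → Bool) := Nat.cast_nonneg _
      nlinarith
    · have h1 : ∀ v, ff h e β nx qd Φ 0 cf σ v = 0 := by
        intro v
        unfold ff
        rw [Finset.card_eq_zero, Finset.filter_eq_empty_iff]
        intro J _ hc
        exact hΦ hc.2
      have h2 : pr e β nx qd Φ 0 cf σ = 0 := by
        unfold pr
        rw [avg, idc, if_neg hΦ]
      simp only [h1, h2, Nat.cast_zero, Finset.sum_const_zero, mul_zero, zero_add, add_zero]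
      have h3 : (0 : ℝ) ≤ Fintype.card (T → Bool) := Nat.cast_nonneg _
      exact mul_nonneg h3 (by linarith)
  | succ t ih =>
    intro cf σ hi
    by_cases hd : ∃ a, (e (qd cf), a) ∈ Wa e σ
    · rw [pr_dep e β nx qd Φ t hd]
      have h1 := ih (nx cf (β (qd cf) + hd.choose)) σ hi
      have h2 : ∀ v, ff h e β nx qd Φ (t + 1) cf σ v =
          ff h e β nx qd Φ t (nx cf (β (qd cf) + hd.choose)) σ v := by
        intro v
        unfold ff
        congr 1
        apply Finset.filter_congr
        intro J _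
        apply and_congr_right
        intro hc
        rw [rt, Cons_Wa h e hc hd.choose_spec]
      simp only [h2]
      refine h1.trans ?_
      have h3 : (0 : ℝ) ≤ Fintype.card (T → Bool) := Nat.cast_nonneg _
      push_cast
      nlinarith
    · rw [pr_ind e β nx qd Φ t hd]
      have hq : e (qd cf) ∉ Ws e σ := fun hc => hd (Ws_lift e hc)
      set q := qd cf with hqd
      have h0 := ih (nx cf (β q + 0)) ((q, 0) :: σ) ⟨hq, hi⟩
      have h1 := ih (nx cf (β q + 1)) ((q, 1) :: σ) ⟨hq, hi⟩
      have hW : Ws e ((q, (0 : ZMod 2)) :: σ) = Ws e ((q, (1 : ZMod 2)) :: σ) := by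
        rw [Ws_cons, Ws_cons]
      rw [← hW] at h1
      rw [List.length_cons] at h0 h1
      set W' := Ws e ((q, (0 : ZMod 2)) :: σ) with hW'
      set D := Finset.univ.filter fun v : V => Dang lev Bl (Ws e σ) v with hD
      set D' := Finset.univ.filter fun v : V => Dang lev Bl W' v with hD'
      have hsub : D ⊆ D' := by
        intro v hv
        rw [hD, Finset.mem_filter] at hv
        rw [hD', Finset.mem_filter]
        exact ⟨hv.1, Dang_mono lev Bl (Ws_mono e q 0 σ) hv.2⟩
      have hsplit : ∀ v, (ff h e β nx qd Φ (t + 1) cf σ v : ℝ) =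
          ff h e β nx qd Φ t (nx cf (β q + 0)) ((q, 0) :: σ) v +
          ff h e β nx qd Φ t (nx cf (β q + 1)) ((q, 1) :: σ) v := by
        intro v
        rw [← Nat.cast_add]
        congr 1
        unfold ff
        rw [← Finset.card_union_of_disjoint]
        · congr 1
          ext J
          simp only [Finset.mem_filter, Finset.mem_union, Finset.mem_univ, true_and, cons_cons]
          rcases z2 (dt (e q) (h v J)) with g | g
          · rw [rt, ← hqd, g]
            simp
          · rw [rt, ← hqd, g]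
            simp
        · rw [Finset.disjoint_left]
          intro J hJ hJ'
          simp only [Finset.mem_filter, Finset.mem_univ, true_and, cons_cons] at hJ hJ'
          have : (0 : ZMod 2) = 1 := hJ.1.1.symm.trans hJ'.1.1
          exact absurd this (by decide)
      have hle : ∀ v, (ff h e β nx qd Φ (t + 1) cf σ v : ℝ) ≤ cc h e v σ := by
        intro v
        norm_cast
        unfold ff cc
        apply Finset.card_le_card
        intro J hJ
        rw [Finset.mem_filter] at hJ ⊢
        exact ⟨hJ.1, hJ.2.1⟩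
      have hset : (Finset.univ.filter fun v : V => ¬ Dang lev Bl (Ws e σ) v) =
          (Finset.univ.filter fun v : V => ¬ Dang lev Bl W' v) ∪ (D' \ D) := by
        ext v
        simp only [Finset.mem_filter, Finset.mem_union, Finset.mem_sdiff, Finset.mem_univ,
          true_and, hD, hD']
        constructor
        · intro h1
          by_cases h2 : Dang lev Bl W' v
          · exact Or.inr ⟨h2, h1⟩
          · exact Or.inl h2
        · rintro (h1 | h1)
          · exact fun hc => h1 (Dang_mono lev Bl (Ws_mono e q 0 σ) hc)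
          · exact h1.2
      have hdisj : Disjoint (Finset.univ.filter fun v : V => ¬ Dang lev Bl W' v) (D' \ D) := by
        rw [Finset.disjoint_left]
        intro v hv hv'
        rw [Finset.mem_filter] at hv
        rw [Finset.mem_sdiff, hD', Finset.mem_filter] at hv'
        exact hv.2 hv'.1.2
      rw [hset, Finset.sum_union hdisj]
      have hnew : (2 : ℝ) ^ σ.length * ∑ v ∈ D' \ D, (ff h e β nx qd Φ (t + 1) cf σ v : ℝ) ≤
          Fintype.card (T → Bool) * ((D'.card : ℝ) - D.card) := by
        have g1 : (2 : ℝ) ^ σ.length * ∑ v ∈ D' \ D, (ff h e β nx qd Φ (t + 1) cf σ v : ℝ) ≤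
            ∑ v ∈ D' \ D, (Fintype.card (T → Bool) : ℝ) := by
          rw [Finset.mul_sum]
          refine Finset.sum_le_sum fun v hv => ?_
          rw [← cc_count lev Bl h e hh hi (fun hc => (Finset.mem_sdiff.1 hv).2 (by
            rw [hD, Finset.mem_filter]
            exact ⟨Finset.mem_univ _, hc⟩))]
          exact mul_le_mul_of_nonneg_left (hle v) (by positivity)
        refine g1.trans (le_of_eq ?_)
        rw [Finset.sum_const, nsmul_eq_mul, Finset.card_sdiff_of_subset hsub,
          Nat.cast_sub (Finset.card_le_card hsub)]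
        ring
      have hold : (2 : ℝ) ^ (σ.length + 1) *
          ∑ v ∈ Finset.univ.filter fun v : V => ¬ Dang lev Bl W' v,
            (ff h e β nx qd Φ (t + 1) cf σ v : ℝ) ≤
          Fintype.card (T → Bool) * (Fintype.card V *
            pr e β nx qd Φ t (nx cf (β q + 0)) ((q, 0) :: σ) + (σ.length + 1 : ℕ) + t - D'.card) +
          Fintype.card (T → Bool) * (Fintype.card V *
            pr e β nx qd Φ t (nx cf (β q + 1)) ((q, 1) :: σ) + (σ.length + 1 : ℕ) + t -
              D'.card) := by
        refine le_trans (le_of_eq ?_) (add_le_add h0 h1)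
        rw [← mul_add, ← Finset.sum_add_distrib]
        congr 1
        exact Finset.sum_congr rfl fun v _ => hsplit v
      rw [pow_succ] at hold
      push_cast at hold ⊢
      nlinarith

/-- **Masking**: the average success of the real process. -/
theorem main (hh : Hyp lev Bl h) (Φ : Cf → Prop) (t : ℕ) (cf : Cf) :
    (∑ v : V, (ff h e β nx qd Φ t cf [] v : ℝ)) ≤
      Fintype.card (T → Bool) * (Fintype.card V * pr e β nx qd Φ t cf [] + t) := by
  classical
  have h1 := tree lev Bl h e β nx qd hh Φ t cf [] trivial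
  have h2 : (Finset.univ.filter fun v : V => Dang lev Bl (Ws e ([] : List (Q × ZMod 2))) v) =
      ∅ := by
    rw [← Finset.card_eq_zero]
    have := (card_dang lev Bl h hh (Ws e ([] : List (Q × ZMod 2)))).trans (finrank_Ws e _)
    simpa using this
  have h3 : (Finset.univ.filter fun v : V => ¬ Dang lev Bl (Ws e ([] : List (Q × ZMod 2))) v) =
      Finset.univ := by
    rw [Finset.filter_not, h2, Finset.sdiff_empty]
  rw [h3] at h1
  simp only [List.length_nil, pow_zero, one_mul, Nat.cast_zero, add_zero] at h1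
  have h4 : ((Finset.univ.filter fun v : V => Dang lev Bl (Ws e ([] : List (Q × ZMod 2))) v).card
      : ℝ) = 0 := by
    rw [h2]
    simp
  rw [h4, sub_zero] at h1
  exact h1

/-- a bound for the ideal process -/
theorem avg_le {F : List Bool → ℝ} {c : ℝ} : ∀ t : ℕ, (∀ z : List Bool, z.length = t → F z ≤ c) →
    avg t F ≤ c := by
  intro t
  induction t generalizing F with
  | zero => intro hF; exact hF [] rfl
  | succ t ih =>
    intro hF
    rw [avg]
    have h0 := ih (F := fun z => F (false :: z)) fun z hz => hF _ (by rw [List.length_cons, hz])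
    have h1 := ih (F := fun z => F (true :: z)) fun z hz => hF _ (by rw [List.length_cons, hz])
    linarith

theorem avg_sum {ι : Type} (s : Finset ι) (F : ι → List Bool → ℝ) (t : ℕ) :
    ∑ i ∈ s, avg t (F i) = avg t fun z => ∑ i ∈ s, F i z := by
  induction t generalizing F with
  | zero => rfl
  | succ t ih =>
    simp only [avg]
    rw [← ih, ← ih, ← Finset.sum_add_distrib, Finset.sum_div]

end

end Pool.Agent.APS
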