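import Pool.Agent.Lib_helper78.APS.Stage

/-!
# The choice of the junk and the secret sequence (MP_5d94c0_lc)
-/

set_option autoImplicit false
set_option linter.unusedSectionVars false

namespace Pool.Agent.APS

open Pool.Agent.CK Pool.Agent.TD Pool.Agent.TPR Pool.Agent.CKP Pool.Agent.PSL Pool.Agent.AEC

open Pool.Agent.PCW (N N_mono N_lt N_le_iff N_pos N_two N_succ rr rr_mono rr_le_N rr_ge k_lt_N)

/-! ### numbers -/

theorem num_a (j : ℕ) (hj : 4 ≤ j) : 20 * ((j + 3) * 2 ^ (j + 2)) ≤ N (j + 1) := by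
  have h1 : 20 * (j + 3) ≤ 2 ^ (j + 4) := by
    induction j, hj using Nat.le_induction with
    | base => norm_num
    | succ j hj ih => rw [show j + 1 + 4 = (j + 4) + 1 by ring, pow_succ]; omega
  have h2 : 2 * j + 6 ≤ 2 ^ (j + 1) := by
    clear h1
    induction j, hj using Nat.le_induction with
    | base => norm_num
    | succ j hj ih => rw [pow_succ]; omega
  calc 20 * ((j + 3) * 2 ^ (j + 2)) = 20 * (j + 3) * 2 ^ (j + 2) := by ring
    _ ≤ 2 ^ (j + 4) * 2 ^ (j + 2) := Nat.mul_le_mul_right _ h1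
    _ = 2 ^ (2 * j + 6) := by rw [← pow_add]; congr 1; ring
    _ ≤ 2 ^ 2 ^ (j + 1) := Nat.pow_le_pow_right (by norm_num) h2
    _ = N (j + 1) := rfl

/-- the bound for the time at a stage -/
theorem num_T {j n : ℕ} (hj : 4 ≤ j) (hn : N (j + 1) ≤ n) : N (j + 2) ^ (j + 3) ≤ Tn n := by
  have h1 := num_a j hj
  have h2 : (j + 3) * 2 ^ (j + 2) ≤ n / 20 := by
    rw [Nat.le_div_iff_mul_le (by norm_num)]
    omega
  unfold Tn N
  rw [← pow_mul]
  refine Nat.pow_le_pow_right (by norm_num) ?_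
  rw [mul_comm]
  exact h2

theorem num_b (j : ℕ) : (j + 1) ^ 2 ≤ N (j + 2) := by
  have h1 : j + 1 ≤ 2 ^ j := Nat.lt_two_pow_self
  have h2 : 2 * j ≤ 2 ^ (j + 2) := by
    have : j < 2 ^ j := Nat.lt_two_pow_self
    rw [pow_add]
    omega
  calc (j + 1) ^ 2 ≤ (2 ^ j) ^ 2 := Nat.pow_le_pow_left h1 2
    _ = 2 ^ (2 * j) := by rw [← pow_mul]; congr 1; ring
    _ ≤ 2 ^ 2 ^ (j + 2) := Nat.pow_le_pow_right (by norm_num) h2
    _ = N (j + 2) := rfl

theorem num_c (j : ℕ) : 2 ^ (j + 7) ≤ N (j + 2) ^ 2 := by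
  have h2 : j + 7 ≤ 2 * 2 ^ (j + 2) := by
    have : j + 1 ≤ 2 ^ j := Nat.lt_two_pow_self
    rw [pow_add]
    omega
  calc 2 ^ (j + 7) ≤ 2 ^ (2 * 2 ^ (j + 2)) := Nat.pow_le_pow_right (by norm_num) h2
    _ = N (j + 2) ^ 2 := by unfold N; rw [← pow_mul]; congr 1; ring

/-- the first part of the union bound -/
theorem num_d {j b E n : ℕ} (hj : 4 ≤ j) (hb : b ≤ j) (hE : 5 * E + 3 ≤ b)
    (hn : N (j + 1) ≤ n) :
    2 ^ (j + 7) * ((b + 1) ^ 2 * N (j + 2) ^ (4 * E + 1)) ≤ Tn n := by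
  have hp := N_pos (j + 2)
  calc 2 ^ (j + 7) * ((b + 1) ^ 2 * N (j + 2) ^ (4 * E + 1))
      ≤ N (j + 2) ^ 2 * (N (j + 2) * N (j + 2) ^ (4 * E + 1)) := by
        refine Nat.mul_le_mul (num_c j) (Nat.mul_le_mul_right _ ?_)
        exact (Nat.pow_le_pow_left (by omega) 2).trans (num_b j)
    _ = N (j + 2) ^ (4 * E + 4) := by ring
    _ ≤ N (j + 2) ^ (j + 3) := Nat.pow_le_pow_right hp (by omega)
    _ ≤ Tn n := num_T hj hn

/-- the second part of the union bound -/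
theorem num_e {j b E : ℕ} (hb : b ≤ j) (hE : 5 * E + 3 ≤ b) :
    2 ^ (j + 7) * ((b + 1) ^ 2 * N (j + 2) ^ (5 * E + 1)) ≤ N (j + 2) ^ (b + 1) := by
  have hp := N_pos (j + 2)
  calc 2 ^ (j + 7) * ((b + 1) ^ 2 * N (j + 2) ^ (5 * E + 1))
      ≤ N (j + 2) ^ 2 * (N (j + 2) * N (j + 2) ^ (5 * E + 1)) := by
        refine Nat.mul_le_mul (num_c j) (Nat.mul_le_mul_right _ ?_)
        exact (Nat.pow_le_pow_left (by omega) 2).trans (num_b j)
    _ = N (j + 2) ^ (5 * E + 4) := by ring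
    _ ≤ _ := Nat.pow_le_pow_right hp (by omega)

theorem mqG_mono {n n' : ℕ} (h : n ≤ n') : mqG Tn n ≤ mqG Tn n' := by
  have h1 : Tn n ≤ Tn n' := Nat.pow_le_pow_right (by norm_num) (Nat.div_le_div_right h)
  unfold mqG
  omega

section

variable {ext : List Bool → Finset (List Bool)} (hext : Adm ext)

/-- bound for the lengths at the stage -/
def len (j : ℕ) : ℕ := 4 * mqG Tn (N (j + 2)) + 30 * N j + 10

/-! ### locality -/

include hext in
theorem OW_congr {Y : Lang} {b : ℕ → ℕ} (hmono : Monotone b) (hb : ∀ k, b k ≤ k) {M : ℕ}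
    {ω ω' : Lang} (h : ∀ s : List Bool, s.length < 4 * M + 2 → ω s = ω' s) :
    ∀ q : List Bool, q.length ≤ M → OW ext Y (rr b) ω q = OW ext Y (rr b) ω' q := by
  refine orcA_congr hext (fun k hk => ?_) (fun p hp => ?_)
  · refine pre_congr fun i hi => h _ ?_
    have := rr_le_N hmono hb k
    rw [List.length_cons, List.length_replicate]
    omega
  · exact h _ (by rw [List.length_cons]; omega)

include hext in
theorem sx_congr {Y : Lang} {b : ℕ → ℕ} (hmono : Monotone b) (hb : ∀ k, b k ≤ k) {S : Sec}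
    {ω ω' : Lang} {n : ℕ} {c : Cmd} {v : Str} {l t : ℕ} (hv : v.length + l ≤ Tn n)
    (ht : t ≤ Tn n) (h : ∀ s : List Bool, s.length < 4 * mqG Tn n + 2 → ω s = ω' s) :
    sx S (OW ext Y (rr b) ω) n c v l t = sx S (OW ext Y (rr b) ω') n c v l t := by
  unfold sx
  refine Finset.sum_congr rfl fun w _ => Finset.sum_congr rfl fun x _ => ?_
  rw [run_congrG Tn c x (v ++ w.1) (by rw [List.length_append, w.2]; exact hv) t ht
    (OW_congr hext hmono hb h)]

/-! ### the average over all tables -/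

/-- security relative to all lower parts -/
def SecN (Y : Lang) (r : ℕ → ℕ) (S : Sec) (n : ℕ) : Prop :=
  ∀ (ω O1 : Lang), IsClo ext Y (HL ext Y r (An n) ω) O1 →
    ∀ A ∈ Gn hext n, Tn n * sc S n A O1 < 4 ^ n

theorem avg_E {Y : Lang} {r : ℕ → ℕ} {S : Sec} {j m n L : ℕ}
    (hw : Wnd r j m (An n) (Bn n)) (hsec : SecN hext Y r S n) {c : Cmd}
    (hc : Encodable.encode c ≤ n) {v : Str} {l t : ℕ} (hv : v.length + l ≤ Tn n)
    (ht : t ≤ Tn n) (hL1 : r (j + 1) + 1 ≤ L) (hL2 : Bn n + 1 ≤ L) :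
    (∑ ω : CL L → Bool, sx S (OW ext Y r (ov L ω)) n c v l t) ≤
      Fintype.card (CL L → Bool) * (2 ^ l * 4 ^ n * (1 / Tn n + t / 2 ^ m)) := by
  classical
  have hlV : ∀ a, (ιV (r j) m a).length < L := by
    intro a
    have h1 := a.2
    have h2 := hw.blk
    unfold ιV
    rw [List.length_cons, List.length_replicate]
    omega
  have hlJ : ∀ a, (ιJ (An n) (Bn n) a).length < L := by
    intro a
    have h1 := a.2.2
    unfold ιJ
    rw [List.length_cons]
    omega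
  have h1 := resample (ιV_inj (r j) m) hlV fun ω =>
    ∑ J : Pos (An n) (Bn n) → Bool, sx S (OW ext Y r (gl (ιJ (An n) (Bn n)) ω J)) n c v l t
  have h2 := resample (ιJ_inj (An n) (Bn n)) hlJ fun ω => sx S (OW ext Y r ω) n c v l t
  rw [h2, Fintype.card_fin] at h1
  have h3 : (∑ ω : CL L → Bool, ∑ η : Fin m → Bool, ∑ J : Pos (An n) (Bn n) → Bool,
      sx S (OW ext Y r (gl (ιJ (An n) (Bn n)) (gl (ιV (r j) m) (ov L ω) η) J)) n c v l t) ≤
      ∑ _ω : CL L → Bool, Fintype.card (Pos (An n) (Bn n) → Bool) *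
        (2 ^ m * (2 ^ l * (4 ^ n / Tn n)) + 2 ^ l * (4 ^ n * t) : ℝ) := by
    refine Finset.sum_le_sum fun ω _ => ?_
    obtain ⟨O1, hO1⟩ := exists_clo hext Y (HL ext Y r (An n) (ov L ω))
    exact stage_E hext hw (ov L ω) hO1 (hsec _ _ hO1) hc hv ht
  rw [h1, Finset.sum_const, Finset.card_univ, nsmul_eq_mul] at h3
  have e1 : (Fintype.card (Pos (An n) (Bn n) → Bool) : ℝ) =
      2 ^ Fintype.card (Pos (An n) (Bn n)) := by simp
  rw [e1] at h3
  set P : ℝ := 2 ^ Fintype.card (Pos (An n) (Bn n)) with hP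
  have hP0 : 0 < P := by positivity
  have hm0 : (0 : ℝ) < 2 ^ m := by positivity
  have hT0 : (0 : ℝ) < Tn n := by
    unfold Tn
    positivity
  have h4 : 2 ^ m * P * (∑ ω : CL L → Bool, sx S (OW ext Y r (ov L ω)) n c v l t) ≤
      2 ^ m * P * (Fintype.card (CL L → Bool) *
        (2 ^ l * 4 ^ n * (1 / Tn n + t / 2 ^ m))) := by
    calc _ = 2 ^ m * (P * ∑ ω : CL L → Bool, sx S (OW ext Y r (ov L ω)) n c v l t) := by ring
      _ ≤ _ := h3
      _ = _ := by
        field_simp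
  exact le_of_mul_le_mul_left h4 (by positivity)

open Classical in
theorem markov {Y : Lang} {r : ℕ → ℕ} {S : Sec} {j m n L : ℕ}
    (hw : Wnd r j m (An n) (Bn n)) (hsec : SecN hext Y r S n) {c : Cmd}
    (hc : Encodable.encode c ≤ n) {v : Str} {l t e : ℕ} (hv : v.length + l ≤ Tn n)
    (ht : t ≤ Tn n) (hL1 : r (j + 1) + 1 ≤ L) (hL2 : Bn n + 1 ≤ L) :
    ((Finset.univ.filter fun ω : CL L → Bool =>
      4 ^ n * 2 ^ l < n ^ e * sx S (OW ext Y r (ov L ω)) n c v l t).card : ℝ) ≤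
      Fintype.card (CL L → Bool) * (n ^ e * (1 / Tn n + t / 2 ^ m)) := by
  have h1 := avg_E hext hw hsec hc hv ht hL1 hL2
  set B := Finset.univ.filter fun ω : CL L → Bool =>
      4 ^ n * 2 ^ l < n ^ e * sx S (OW ext Y r (ov L ω)) n c v l t with hB
  have h2 : (B.card : ℝ) * (4 ^ n * 2 ^ l) ≤
      ∑ ω : CL L → Bool, n ^ e * sx S (OW ext Y r (ov L ω)) n c v l t := by
    calc (B.card : ℝ) * (4 ^ n * 2 ^ l) = ∑ _ω ∈ B, (4 ^ n * 2 ^ l : ℝ) := by
          rw [Finset.sum_const, nsmul_eq_mul]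
      _ ≤ ∑ ω ∈ B, n ^ e * sx S (OW ext Y r (ov L ω)) n c v l t := by
          refine Finset.sum_le_sum fun ω hω => ?_
          rw [hB, Finset.mem_filter] at hω
          exact hω.2.le
      _ ≤ _ := by
          refine Finset.sum_le_sum_of_subset_of_nonneg (Finset.subset_univ _) fun ω _ _ => ?_
          refine mul_nonneg (by positivity) ?_
          unfold sx
          refine Finset.sum_nonneg fun w _ => Finset.sum_nonneg fun x _ => ?_
          split_ifs <;> norm_num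
  rw [← Finset.mul_sum] at h2
  have h3 : (0 : ℝ) < 4 ^ n * 2 ^ l := by positivity
  have h4 : (B.card : ℝ) * (4 ^ n * 2 ^ l) ≤ Fintype.card (CL L → Bool) *
      (n ^ e * (1 / Tn n + t / 2 ^ m)) * (4 ^ n * 2 ^ l) := by
    refine h2.trans ((mul_le_mul_of_nonneg_left h1 (by positivity)).trans (le_of_eq ?_))
    ring
  exact le_of_mul_le_mul_right h4 h3

/-! ### the bad events -/

/-- some adversary of the stage is successful -/
def Bad (Y : Lang) (b : ℕ → ℕ) (S : Sec) (ext : List Bool → Finset (List Bool)) (j : ℕ)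
    (ω : Lang) : Prop :=
  ∃ (c : Cmd) (e n : ℕ) (v : Str) (l t : ℕ), Encodable.encode c ≤ b j ∧ 5 * e + 3 ≤ b j ∧
    N (j + 1) ≤ n ∧ n < N (j + 2) ∧ v.length ≤ e * Nat.log 2 n ∧ l ≤ n ^ e ∧ t ≤ n ^ e ∧
    4 ^ n * 2 ^ l < n ^ e * sx S (OW ext Y (rr b) ω) n c v l t

theorem small_v {j n e E l : ℕ} {v : Str} (hj : 4 ≤ j) (hE : 5 * E + 3 ≤ j) (he : e ≤ E)
    (h1 : N (j + 1) ≤ n) (h2 : n < N (j + 2)) (hv : v.length ≤ e * Nat.log 2 n)
    (hl : l ≤ n ^ e) : v.length ≤ E * 2 ^ (j + 2) ∧ l ≤ N (j + 2) ^ E ∧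
      v.length + l ≤ Tn n := by
  have hn0 := N_pos (j + 1)
  have hN := N_pos (j + 2)
  have g1 : Nat.log 2 n ≤ 2 ^ (j + 2) := by
    have : Nat.log 2 n < 2 ^ (j + 2) := Nat.log_lt_of_lt_pow (by omega) h2
    omega
  have g2 : v.length ≤ E * 2 ^ (j + 2) := hv.trans (Nat.mul_le_mul he g1)
  have g3 : l ≤ N (j + 2) ^ E :=
    (hl.trans (Nat.pow_le_pow_left h2.le e)).trans (Nat.pow_le_pow_right hN he)
  refine ⟨g2, g3, ?_⟩
  have g4 : E ≤ N (j + 2) := by
    have := k_lt_N (j + 2)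
    omega
  have g5 : 2 ^ (j + 2) ≤ N (j + 2) := (Nat.lt_two_pow_self (n := 2 ^ (j + 2))).le
  have g6 : E * 2 ^ (j + 2) ≤ N (j + 2) ^ (E + 2) := by
    calc E * 2 ^ (j + 2) ≤ N (j + 2) * N (j + 2) := Nat.mul_le_mul g4 g5
      _ = N (j + 2) ^ 2 := by ring
      _ ≤ _ := Nat.pow_le_pow_right hN (by omega)
  have g7 : N (j + 2) ^ E ≤ N (j + 2) ^ (E + 2) := Nat.pow_le_pow_right hN (by omega)
  have g8 : N (j + 2) ^ (E + 2) * 2 ≤ N (j + 2) ^ (E + 3) := by
    rw [pow_succ (N (j + 2)) (E + 2)]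
    exact Nat.mul_le_mul_left _ (N_two _)
  have g9 : N (j + 2) ^ (E + 3) ≤ N (j + 2) ^ (j + 3) := Nat.pow_le_pow_right hN (by omega)
  have g10 := num_T hj h1
  omega

theorem wnd {b : ℕ → ℕ} {j n : ℕ} (hj : 4 ≤ j) (h1 : N (j + 1) ≤ n) (h2 : n < N (j + 2)) :
    Wnd (rr b) j ((b j + 1) * 2 ^ (j + 2)) (An n) (Bn n) where
  mono := rr_mono b
  blk := by rw [rr]
  hA := by unfold An; rw [jj_eq h1 h2]
  hA' := by
    unfold An
    rw [jj_eq h1 h2, N_succ]
    have : N 4 ≤ N j := N_mono hj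
    have h4 : N 4 = 65536 := by unfold N; norm_num
    exact Nat.mul_le_mul_right _ (by omega)
  hB := by
    unfold An Bn mqG
    rw [jj_eq h1 h2]
    have h3 := N_succ j
    have : N 4 ≤ N j := N_mono hj
    have h4 : N 4 = 65536 := by unfold N; norm_num
    have h5 : 64 * N j ≤ N j * N j := Nat.mul_le_mul_right _ (by omega)
    omega

open Classical in
theorem bad_card {Y : Lang} {b : ℕ → ℕ} {S : Sec} (hmono : Monotone b) (hb : ∀ k, b k ≤ k)
    {j : ℕ} (hj : 4 ≤ j) (hsec : ∀ n, N (j + 1) ≤ n → SecN hext Y (rr b) S n) {L : ℕ}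
    (hL : len j ≤ L) : 2 ^ (j + 3) * ((Finset.univ.filter fun ω : CL L → Bool =>
      Bad Y b S ext j (ov L ω)).card : ℝ) ≤ Fintype.card (CL L → Bool) := by
  by_cases hb3 : 3 ≤ b j
  swap
  · have h0 : (Finset.univ.filter fun ω : CL L → Bool => Bad Y b S ext j (ov L ω)) = ∅ := by
      rw [Finset.filter_eq_empty_iff]
      rintro ω _ ⟨c, e, n, v, l, t, _, h, _⟩
      omega
    rw [h0, Finset.card_empty, Nat.cast_zero, mul_zero]
    exact Nat.cast_nonneg _
  set E := (b j - 3) / 5 with hE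
  have hE1 : 5 * E + 3 ≤ b j := by omega
  have hbj := hb j
  set m := (b j + 1) * 2 ^ (j + 2) with hm
  have hfin : ({w : List Bool | w.length ≤ E * 2 ^ (j + 2)}).Finite :=
    List.finite_length_le Bool _
  set I : Finset (ℕ × ℕ × ℕ × List Bool × ℕ × ℕ) := (Finset.range (b j + 1)) ×ˢ
    ((Finset.range (E + 1)) ×ˢ ((Finset.range (N (j + 2))) ×ˢ
    (hfin.toFinset ×ˢ ((Finset.range (N (j + 2) ^ E + 1)) ×ˢ
      (Finset.range (N (j + 2) ^ E + 1)))))) with hI
  set BI : (ℕ × ℕ × ℕ × List Bool × ℕ × ℕ) → Finset (CL L → Bool) := fun i =>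
    Finset.univ.filter fun ω : CL L → Bool => (N (j + 1) ≤ i.2.2.1 ∧
      i.2.2.2.1.length + i.2.2.2.2.1 ≤ Tn i.2.2.1 ∧ i.2.2.2.2.2 ≤ i.2.2.1 ^ i.2.1 ∧
      Encodable.encode ((Encodable.decode i.1 : Option Cmd).getD Cmd.skip) ≤ i.2.2.1) ∧
      4 ^ i.2.2.1 * 2 ^ i.2.2.2.2.1 < (i.2.2.1 : ℝ) ^ i.2.1 *
        sx S (OW ext Y (rr b) (ov L ω)) i.2.2.1
        ((Encodable.decode i.1).getD Cmd.skip) i.2.2.2.1 i.2.2.2.2.1 i.2.2.2.2.2 with hBI
  have hN := N_pos (j + 2)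
  set Q : ℕ := N (j + 2) with hQ
  have hQ1 : (1 : ℝ) ≤ Q := by exact_mod_cast hN
  set T0 : ℕ := Tn (N (j + 1)) with hT0
  have hT0pos : (0 : ℝ) < T0 := by
    rw [hT0]
    unfold Tn
    positivity
  have hcardI : I.card ≤ 8 * ((b j + 1) ^ 2 * Q ^ (3 * E + 1)) := by
    rw [hI, Finset.card_product, Finset.card_product, Finset.card_product, Finset.card_product,
      Finset.card_product, Finset.card_range, Finset.card_range, Finset.card_range,
      Finset.card_range]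
    have h1 : hfin.toFinset.card ≤ 2 * Q ^ E := by
      have h1 := (TD.card_str (E * 2 ^ (j + 2))).2
      have h2 : (2 : ℕ) ^ (E * 2 ^ (j + 2) + 1) = 2 * Q ^ E := by
        rw [pow_succ, mul_comm E, pow_mul, mul_comm]
        rfl
      rw [h2] at h1
      rwa [Set.ncard_eq_toFinset_card _ hfin] at h1
    have h2 : Q ^ E + 1 ≤ 2 * Q ^ E := by
      have : 1 ≤ Q ^ E := Nat.one_le_pow _ _ hN
      omega
    calc (b j + 1) * ((E + 1) * (Q * (hfin.toFinset.card * ((Q ^ E + 1) * (Q ^ E + 1)))))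
        ≤ (b j + 1) * ((b j + 1) * (Q * (2 * Q ^ E * ((2 * Q ^ E) * (2 * Q ^ E))))) := by
          gcongr
          omega
      _ = _ := by ring
  have hδ : ∀ i ∈ I, ((BI i).card : ℝ) ≤ Fintype.card (CL L → Bool) *
      (Q ^ E * (1 / T0 + Q ^ E / Q ^ (b j + 1))) := by
    rintro ⟨a, e, n, v, l, t⟩ hi
    rw [hI, Finset.mem_product, Finset.mem_product, Finset.mem_product, Finset.mem_product,
      Finset.mem_product] at hi
    obtain ⟨h1, h2, h3, _, _, _⟩ := hi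
    simp only [Finset.mem_range] at h1 h2 h3
    have hnn : (0 : ℝ) ≤ Fintype.card (CL L → Bool) * (Q ^ E * (1 / T0 + Q ^ E /
        Q ^ (b j + 1))) := by positivity
    by_cases hcond : N (j + 1) ≤ n ∧ v.length + l ≤ Tn n ∧ t ≤ n ^ e ∧
      Encodable.encode ((Encodable.decode a : Option Cmd).getD Cmd.skip) ≤ n
    swap
    · have h0 : BI (a, e, n, v, l, t) = ∅ := by
        rw [hBI]
        simp only
        rw [Finset.filter_eq_empty_iff]
        rintro ω _ ⟨hc, _⟩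
        exact hcond hc
      rw [h0, Finset.card_empty, Nat.cast_zero]
      exact hnn
    obtain ⟨hn, hvl, hte, hcode⟩ := hcond
    have hn1 : 1 ≤ n := (N_pos _).trans_le hn
    have hle : n ^ e ≤ Q ^ E :=
      (Nat.pow_le_pow_left h3.le e).trans (Nat.pow_le_pow_right hN (by omega))
    have htT : t ≤ Tn n := by
      refine (hte.trans hle).trans ?_
      exact (Nat.pow_le_pow_right hN (by omega)).trans (num_T hj hn)
    have hTn : T0 ≤ Tn n := Nat.pow_le_pow_right (by norm_num) (Nat.div_le_div_right hn)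
    have h4 := markov hext (L := L) (e := e) (wnd (b := b) hj hn h3) (hsec n hn) hcode hvl htT
      (by
        have g1 := rr_le_N hmono hb (j + 1)
        have g2 := N_mono (by omega : j + 1 ≤ j + 2)
        unfold len mqG at hL
        omega)
      (by
        have g1 := mqG_mono (h3.le : n ≤ N (j + 2))
        unfold len at hL
        rw [← hQ] at hL
        unfold Bn
        omega)
    have h5 : ((BI (a, e, n, v, l, t)).card : ℝ) ≤
        Fintype.card (CL L → Bool) * ((n : ℝ) ^ e * (1 / Tn n + t / 2 ^ m)) := by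
      refine le_trans ?_ h4
      rw [hBI]
      simp only
      exact_mod_cast Finset.card_le_card fun ω hω => by
        rw [Finset.mem_filter] at hω ⊢
        exact ⟨hω.1, hω.2.2⟩
    refine h5.trans (mul_le_mul_of_nonneg_left ?_ (Nat.cast_nonneg _))
    have e1 : (2 : ℝ) ^ m = (Q : ℝ) ^ (b j + 1) := by
      rw [hm, mul_comm, pow_mul, hQ]
      unfold N
      push_cast
      rfl
    have h6 : (n : ℝ) ^ e ≤ (Q : ℝ) ^ E := by exact_mod_cast hle
    have h7 : (t : ℝ) ≤ (Q : ℝ) ^ E := by exact_mod_cast hte.trans hle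
    have h8 : (1 : ℝ) / Tn n ≤ 1 / T0 :=
      one_div_le_one_div_of_le hT0pos (by exact_mod_cast hTn)
    rw [e1]
    have h9 : (0 : ℝ) < (Q : ℝ) ^ (b j + 1) := by positivity
    have h10 : (t : ℝ) / (Q : ℝ) ^ (b j + 1) ≤ (Q : ℝ) ^ E / (Q : ℝ) ^ (b j + 1) :=
      div_le_div_of_nonneg_right h7 h9.le
    gcongr
  have hsub : (Finset.univ.filter fun ω : CL L → Bool => Bad Y b S ext j (ov L ω)) ⊆
      I.biUnion BI := by
    intro ω hω
    rw [Finset.mem_filter] at hω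
    obtain ⟨_, c, e, n, v, l, t, h1, h2, h3, h4, h5, h6, h7, h8⟩ := hω
    have heE : e ≤ E := by omega
    obtain ⟨g1, g2, g3⟩ := small_v (E := E) hj (by omega) heE h3 h4 h5 h6
    rw [← hQ] at g2
    have hjn : j ≤ n := by
      have := k_lt_N (j + 1)
      omega
    rw [Finset.mem_biUnion]
    refine ⟨(Encodable.encode c, e, n, v, l, t), ?_, ?_⟩
    · rw [hI, Finset.mem_product, Finset.mem_product, Finset.mem_product, Finset.mem_product,
        Finset.mem_product]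
      simp only [Finset.mem_range]
      refine ⟨by omega, by omega, h4, ?_, by omega, ?_⟩
      · rw [Set.Finite.mem_toFinset]
        exact g1
      · have : t ≤ Q ^ E := h7.trans ((Nat.pow_le_pow_left h4.le e).trans
          (Nat.pow_le_pow_right hN heE))
        omega
    · rw [hBI]
      simp only [Finset.mem_filter, Finset.mem_univ, true_and, Encodable.encodek,
        Option.getD_some]
      exact ⟨⟨h3, g3, h7, by omega⟩, h8⟩
  have hcard : ((Finset.univ.filter fun ω : CL L → Bool =>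
      Bad Y b S ext j (ov L ω)).card : ℝ) ≤ I.card * (Fintype.card (CL L → Bool) *
      (Q ^ E * (1 / T0 + Q ^ E / Q ^ (b j + 1)))) := by
    have h1 := (Finset.card_le_card hsub).trans Finset.card_biUnion_le
    calc ((Finset.univ.filter fun ω : CL L → Bool => Bad Y b S ext j (ov L ω)).card : ℝ)
        ≤ ∑ i ∈ I, ((BI i).card : ℝ) := by
          rw [← Nat.cast_sum]
          exact_mod_cast h1
      _ ≤ ∑ _i ∈ I, (Fintype.card (CL L → Bool) *
          (Q ^ E * (1 / T0 + Q ^ E / Q ^ (b j + 1))) : ℝ) := Finset.sum_le_sum hδ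
      _ = _ := by rw [Finset.sum_const, nsmul_eq_mul]
  have hnum : 2 ^ (j + 3) * ((I.card : ℝ) * (Q ^ E * (1 / T0 + Q ^ E / Q ^ (b j + 1)))) ≤ 1 := by
    have k1 : (I.card : ℝ) ≤ 8 * ((b j + 1) ^ 2 * Q ^ (3 * E + 1)) := by exact_mod_cast hcardI
    have k2 := num_d (n := N (j + 1)) hj hbj hE1 le_rfl
    have k3 := num_e (j := j) hbj hE1
    have k2' : (2 : ℝ) ^ (j + 7) * ((b j + 1) ^ 2 * Q ^ (4 * E + 1)) ≤ T0 := by exact_mod_cast k2
    have k3' : (2 : ℝ) ^ (j + 7) * ((b j + 1) ^ 2 * Q ^ (5 * E + 1)) ≤ Q ^ (b j + 1) := by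
      exact_mod_cast k3
    have h9 : (0 : ℝ) < (Q : ℝ) ^ (b j + 1) := by positivity
    calc 2 ^ (j + 3) * ((I.card : ℝ) * (Q ^ E * (1 / T0 + Q ^ E / Q ^ (b j + 1))))
        ≤ 2 ^ (j + 3) * ((8 * ((b j + 1) ^ 2 * Q ^ (3 * E + 1))) *
          (Q ^ E * (1 / T0 + Q ^ E / Q ^ (b j + 1)))) := by gcongr
      _ = (2 ^ (j + 7) * ((b j + 1) ^ 2 * Q ^ (4 * E + 1)) / T0 +
          2 ^ (j + 7) * ((b j + 1) ^ 2 * Q ^ (5 * E + 1)) / Q ^ (b j + 1)) / 2 := by
          field_simp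
          ring
      _ ≤ (1 + 1) / 2 := by
          gcongr
          · rw [div_le_one hT0pos]
            exact k2'
          · rw [div_le_one h9]
            exact k3'
      _ = 1 := by norm_num
  have hΩ : (0 : ℝ) ≤ Fintype.card (CL L → Bool) := Nat.cast_nonneg _
  calc 2 ^ (j + 3) * ((Finset.univ.filter fun ω : CL L → Bool =>
      Bad Y b S ext j (ov L ω)).card : ℝ) ≤ 2 ^ (j + 3) * (I.card *
        (Fintype.card (CL L → Bool) * (Q ^ E * (1 / T0 + Q ^ E / Q ^ (b j + 1))))) := by gcongr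
    _ = Fintype.card (CL L → Bool) * (2 ^ (j + 3) * ((I.card : ℝ) *
        (Q ^ E * (1 / T0 + Q ^ E / Q ^ (b j + 1))))) := by ring
    _ ≤ Fintype.card (CL L → Bool) * 1 := by gcongr
    _ = _ := mul_one _

end

end Pool.Agent.APS
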