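import Pool.Agent.Lib_helper74.CKF.Defs

/-! # Polynomial space relative to an oracle (MP_5d94c0_lc) -/

set_option autoImplicit false

namespace Pool.Agent.APS

open Pool.Agent.CK

/-- `D ∈ PSPACE^O`: a program decides `D`, and at all times the contents of all stacks (and so the
questions to the oracle) have polynomial length. -/
def InPSPACE (O D : Lang) : Prop :=
  ∃ (c : Cmd) (k : ℕ), ∀ x : List Bool,
    (∀ t r : ℕ, ((run O c x [] t).2 r).length ≤ (x.length + 2) ^ k) ∧
    ∃ t : ℕ, Halts O c x [] t ∧ (Accepts O c x [] t ↔ D x = true)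

end Pool.Agent.APS
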