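import Pool.Agent.Lib_helper78.APS.Defs
import Pool.Agent.Lib_helper78.PCW.C
import Pool.Agent.Lib_helper78.PCL.D
import Pool.Agent.Lib_helper61.PSL.Build

/-!
# Universal questions for polynomial space (MP_5d94c0_lc)
-/

set_option autoImplicit false

namespace Pool.Agent.APS

open Pool.Agent.CK Pool.Agent.CKP Pool.Agent.PSL

/-- a run of bounded space accepts -/
def SA (O : Lang) (c : Cmd) (x : List Bool) (m : ℕ) : Prop :=
  ∃ t : ℕ, (∀ t' ≤ t, ∀ r, ((run O c x [] t').2 r).length ≤ m) ∧ accB O c x [] t = true

theorem sa_mp {O O' : Lang} {c : Cmd} {x : List Bool} {m : ℕ}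
    (h : ∀ q : List Bool, q.length ≤ m → O q = O' q) (hs : SA O c x m) : SA O' c x m := by
  obtain ⟨t, h1, h2⟩ := hs
  have key : ∀ i ≤ t, run O' c x [] i = run O c x [] i := by
    intro i
    induction i with
    | zero => intro _; rfl
    | succ i ih =>
      intro hi
      rw [PCW.run_succ, PCW.run_succ, ih (by omega)]
      refine (PCW.step_congr fun q hq => h q ?_).symm
      have h3 := h1 i (by omega)
      revert hq h3
      generalize run O c x [] i = cf
      obtain ⟨k, s⟩ := cf
      intro hq h3
      cases k with
      | nil => cases hq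
      | cons d k =>
        cases d with
        | ask r c1 c2 =>
          have h4 : s r = q := by
            unfold PCW.qry at hq
            exact Option.some.inj hq
          rw [← h4]
          exact h3 r
        | _ => cases hq
  refine ⟨t, fun t' ht' r => ?_, ?_⟩
  · rw [key t' ht']
    exact h1 t' ht' r
  · unfold accB at h2 ⊢
    rw [key t le_rfl]
    exact h2

theorem sa_congr {O O' : Lang} {c : Cmd} {x : List Bool} {m : ℕ}
    (h : ∀ q : List Bool, q.length ≤ m → O q = O' q) : SA O c x m ↔ SA O' c x m :=
  ⟨sa_mp h, sa_mp fun q hq => (h q hq).symm⟩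

open Classical in
/-- The universal question for polynomial space: `w` codes a program number, an input and a space
bound. -/
noncomputable def KS (O : Lang) (w : List Bool) : Bool :=
  decide (SA O (prog (toList (dec w).car).length) (toBits (dec w).cdr.car)
    (toList (dec w).cdr.cdr).length)

theorem KS_congr {O O' : Lang} {w : List Bool}
    (h : ∀ q : List Bool, q.length < 8 * w.length + 8 → O q = O' q) : KS O w = KS O' w := by
  have hs := size_dec_le w
  have h1 := toList_len (dec w).cdr.cdr
  have h3 := cdr_size (dec w)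
  have h4 := cdr_size (dec w).cdr
  unfold KS
  rw [decide_eq_decide]
  exact sa_congr fun q hq => h q (by omega)

/-- both kinds of questions -/
noncomputable def KK (O : Lang) : List Bool → Bool
  | [] => false
  | false :: w => K O w
  | true :: w => KS O w

theorem KK_congr {O O' : Lang} {w : List Bool}
    (h : ∀ q : List Bool, q.length < 8 * w.tail.length + 8 → O q = O' q) : KK O w = KK O' w := by
  match w with
  | [] => rfl
  | false :: w => exact K_congr h
  | true :: w => exact KS_congr h

theorem KS_kg (O : Lang) (i : ℕ) (x : List Bool) :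
    KS O (kg i x) = true ↔ SA O (prog i) x ((x.length + 2) ^ ex i) := by
  have e : dec (kg i x) = D.cons (tg i) (.cons (toD x) (tg ((x.length + 2) ^ ex i))) := dec_enc _
  simp only [KS, decide_eq_true_eq]
  rw [e]
  have h1 : (D.cons (tg i) (.cons (toD x) (tg ((x.length + 2) ^ ex i)))).car = tg i := rfl
  have h2 : (D.cons (tg i) (.cons (toD x) (tg ((x.length + 2) ^ ex i)))).cdr.car = toD x := rfl
  have h3 : (D.cons (tg i) (.cons (toD x) (tg ((x.length + 2) ^ ex i)))).cdr.cdr =
    tg ((x.length + 2) ^ ex i) := rfl
  rw [h1, h2, h3, toBits_toD, toList_tg, toList_tg]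

/-- enumeration of `PSPACE` -/
theorem exists_SL {O D : Lang} (h : InPSPACE O D) : ∃ i, ∀ x, KS O (kg i x) = D x := by
  obtain ⟨c, k, h⟩ := h
  refine ⟨Nat.pair (Encodable.encode c) k, fun x => ?_⟩
  rw [Bool.eq_iff_iff, KS_kg, enum_prog, enum_ex]
  obtain ⟨h1, t0, h2, h3⟩ := h x
  rw [← h3, ← enum_accB]
  constructor
  · rintro ⟨t, _, h5⟩
    have h6 : Halts O c x [] t := ((enum_accB O c x [] t).1 h5).1
    have h7 : run O c x [] t = run O c x [] t0 := by
      rcases le_total t t0 with hle | hle
      · exact (PCL.NE_run_stable h6 hle).symm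
      · exact PCL.NE_run_stable h2 hle
    unfold accB at h5 ⊢
    rw [← h7]
    exact h5
  · intro h4
    exact ⟨t0, fun t' _ r => h1 t' r, h4⟩

end Pool.Agent.APS
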