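import Pool.Agent.Lib_helper78.AEC.Dec
import Pool.Agent.Lib_helper78.PCW.B
import Pool.Agent.Lib_helper78.APS.Avg
import Pool.Agent.Lib_helper78.APS.Space

/-!
# Closed oracles with hidden answers and junk (MP_5d94c0_lc)

`ρ` is the secret sequence, `pre ρ (r k)` the password of scale `k`.  The right part of the closed
oracle answers universal `NP` questions at the positions of length from `N k` to `64 * N k - 1` that
contain the password of scale `k`, all its other positions are filled with the junk `J`.
-/

set_option autoImplicit false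
set_option linter.unusedSectionVars false

namespace Pool.Agent.APS

open Pool.Agent.CK Pool.Agent.CKP Pool.Agent.PSL Pool.Agent.AEC

open Pool.Agent.PCW (N N_mono N_lt N_le_iff N_pos N_two N_succ)

/-- positions with contents -/
def cont (r : ℕ → ℕ) (ρ : ℕ → Bool) (q : List Bool) : Prop :=
  ∃ k, pw q = pre ρ (r k) ∧ N k ≤ q.length ∧ q.length < 64 * N k

/-- the contents -/
def key (r : ℕ → ℕ) (ρ : ℕ → Bool) (O : Lang) (q : List Bool) : Prop :=
  ∃ k, pw q = pre ρ (r k) ∧ N k ≤ q.length ∧ q.length < 64 * N k ∧
    (isA q = true ∨ (8 * (qw q).tail.length + 8 ≤ N k ∧ KK O (qw q) = true))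

open Classical in
/-- the right part -/
noncomputable def Hop (r : ℕ → ℕ) (ρ : ℕ → Bool) (J O : Lang) : Lang := fun q =>
  if cont r ρ q then decide (key r ρ O q) else J q

theorem Hop_junk {r : ℕ → ℕ} {ρ : ℕ → Bool} {J O : Lang} {q : List Bool} (h : ¬ cont r ρ q) :
    Hop r ρ J O q = J q := by
  unfold Hop
  rw [if_neg h]

theorem Hop_key {r : ℕ → ℕ} {ρ : ℕ → Bool} {J O : Lang} {q : List Bool} (h : cont r ρ q) :
    Hop r ρ J O q = true ↔ key r ρ O q := by
  classical
  unfold Hop
  rw [if_pos h]
  exact decide_eq_true_iff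

theorem cont_congr {r : ℕ → ℕ} {ρ ρ' : ℕ → Bool} {x : List Bool}
    (hρ : ∀ k, N k ≤ x.length → pre ρ (r k) = pre ρ' (r k)) : cont r ρ x ↔ cont r ρ' x := by
  unfold cont
  apply exists_congr
  intro k
  constructor
  · rintro ⟨h1, h2, h3⟩
    exact ⟨by rw [h1, hρ k h2], h2, h3⟩
  · rintro ⟨h1, h2, h3⟩
    exact ⟨by rw [h1, hρ k h2], h2, h3⟩

theorem key_congr {r : ℕ → ℕ} {ρ ρ' : ℕ → Bool} {O O' : Lang} {x : List Bool}
    (hρ : ∀ k, N k ≤ x.length → pre ρ (r k) = pre ρ' (r k))
    (hO : ∀ w : List Bool, w.length < x.length → O w = O' w) :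
    key r ρ O x ↔ key r ρ' O' x := by
  unfold key
  apply exists_congr
  intro k
  by_cases h2 : N k ≤ x.length
  · rw [hρ k h2]
    have hK : 8 * (qw x).tail.length + 8 ≤ N k → KK O (qw x) = KK O' (qw x) := fun h8 =>
      KK_congr fun w hw => hO w (by omega)
    constructor
    · rintro ⟨h1, h2, h3, h4⟩
      refine ⟨h1, h2, h3, ?_⟩
      rcases h4 with h4 | ⟨h4, h5⟩
      · exact Or.inl h4
      · exact Or.inr ⟨h4, by rw [← hK h4]; exact h5⟩
    · rintro ⟨h1, h2, h3, h4⟩
      refine ⟨h1, h2, h3, ?_⟩
      rcases h4 with h4 | ⟨h4, h5⟩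
      · exact Or.inl h4
      · exact Or.inr ⟨h4, by rw [hK h4]; exact h5⟩
  · constructor
    · rintro ⟨_, h3, _⟩; exact absurd h3 h2
    · rintro ⟨_, h3, _⟩; exact absurd h3 h2

theorem Hop_congr {r : ℕ → ℕ} {ρ ρ' : ℕ → Bool} {J J' O O' : Lang} {x : List Bool}
    (hρ : ∀ k, N k ≤ x.length → pre ρ (r k) = pre ρ' (r k)) (hJ : J x = J' x)
    (hO : ∀ w : List Bool, w.length < x.length → O w = O' w) :
    Hop r ρ J O x = Hop r ρ' J' O' x := by
  have h1 := cont_congr (r := r) hρ
  have h2 := key_congr (r := r) hρ hO
  unfold Hop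
  by_cases h : cont r ρ x
  · rw [if_pos h, if_pos (h1.1 h)]
    exact decide_eq_decide.2 h2
  · rw [if_neg h, if_neg fun hc => h (h1.2 hc), hJ]

section

variable {ext : List Bool → Finset (List Bool)} (hext : Adm ext) (X : Lang) (r : ℕ → ℕ)
  (ρ : ℕ → Bool) (J : Lang)

/-- the operator -/
noncomputable def opA (ext : List Bool → Finset (List Bool)) (X : Lang) (r : ℕ → ℕ)
    (ρ : ℕ → Bool) (J O : Lang) : Lang := opC ext X (Hop r ρ J O) O

include hext in
theorem opA_loc : LocG (opA ext X r ρ J) := by
  intro x O O' h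
  unfold opA
  match x with
  | [] => rfl
  | [false] => rfl
  | false :: false :: s => rfl
  | false :: true :: w =>
    refine par_congr' fun s hs => h s ?_
    have := hext w s hs
    simp only [List.length_cons]
    omega
  | true :: x =>
    exact Hop_congr (fun _ _ => rfl) rfl fun w hw => h w (by
      rw [List.length_cons]
      omega)

/-- the oracle -/
noncomputable def orcA (ext : List Bool → Finset (List Bool)) (X : Lang) (r : ℕ → ℕ)
    (ρ : ℕ → Bool) (J : Lang) : Lang := fixG false (opA ext X r ρ J)

/-- the right part of the oracle -/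
noncomputable def HA (ext : List Bool → Finset (List Bool)) (X : Lang) (r : ℕ → ℕ)
    (ρ : ℕ → Bool) (J : Lang) : Lang := Hop r ρ J (orcA ext X r ρ J)

include hext in
theorem orcA_clo : IsClo ext X (HA ext X r ρ J) (orcA ext X r ρ J) where
  nil := fixG_eq false (opA_loc hext X r ρ J) []
  one := fixG_eq false (opA_loc hext X r ρ J) [false]
  left s := fixG_eq false (opA_loc hext X r ρ J) (false :: false :: s)
  mid w := fixG_eq false (opA_loc hext X r ρ J) (false :: true :: w)
  right x := fixG_eq false (opA_loc hext X r ρ J) (true :: x)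

end

section

variable {ext : List Bool → Finset (List Bool)} (hext : Adm ext) {X : Lang} {r : ℕ → ℕ}
  {ρ ρ' : ℕ → Bool} {J J' : Lang}

include hext in
/-- agreement on short strings -/
theorem orcA_congr {n : ℕ} (hρ : ∀ k, N k < n → pre ρ (r k) = pre ρ' (r k))
    (hJ : ∀ p : List Bool, p.length < n → J p = J' p) :
    ∀ q : List Bool, q.length ≤ n → orcA ext X r ρ J q = orcA ext X r ρ' J' q := by
  have h := orcA_clo hext X r ρ J
  have h' := orcA_clo hext X r ρ' J'
  intro q
  induction hn : q.length using Nat.strong_induction_on generalizing q with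
  | _ l ih =>
    intro hN
    subst hn
    match q with
    | [] => rw [h.nil, h'.nil]
    | [false] => rw [h.one, h'.one]
    | false :: false :: s => rw [h.left, h'.left]
    | false :: true :: w =>
      rw [h.mid, h'.mid]
      refine par_congr' fun x hx => ?_
      have hl := hext w x hx
      simp only [List.length_cons] at hN ih
      exact ih x.length (by omega) x rfl (by omega)
    | true :: x =>
      rw [h.right, h'.right]
      simp only [List.length_cons] at hN ih
      exact Hop_congr (fun k hk => hρ k (by omega)) (hJ x (by omega)) fun w hw =>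
        ih w.length (by omega) w rfl (by omega)

include hext in
theorem HA_congr {x : List Bool} (hρ : ∀ k, N k ≤ x.length → pre ρ (r k) = pre ρ' (r k))
    (hJ : ∀ p : List Bool, p.length < x.length → J p = J' p) (hx : J x = J' x) :
    HA ext X r ρ J x = HA ext X r ρ' J' x := by
  unfold HA
  exact Hop_congr hρ hx fun w hw => orcA_congr hext (n := x.length)
    (fun k hk => hρ k hk.le) hJ w hw.le

end

/-! ### the answers -/

section

variable {r : ℕ → ℕ} {ρ : ℕ → Bool} {J O : Lang}

theorem pwA (u z : List Bool) : pw (qA u ++ z) = u := PCW.pw_app z (toBits_toD u)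

theorem isA_app (u z : List Bool) : isA (qA u ++ z) = true := by
  unfold isA qA
  rw [PCW.dec_app]
  simp [D.car]

theorem pwB (u w z : List Bool) : pw (qB u w ++ z) = u := PCW.pw_app z (toBits_toD u)

theorem qwB (u w z : List Bool) : qw (qB u w ++ z) = w := by
  unfold qw qB
  rw [PCW.dec_app]
  exact toBits_toD w

theorem isB_app (u w z : List Bool) : isA (qB u w ++ z) = false := by
  unfold isA qB
  rw [PCW.dec_app]
  simp [D.car]

/-- confirmation of passwords -/
theorem Hop_qA {k : ℕ} {z : List Bool} (h1 : N k ≤ (qA (pre ρ (r k)) ++ z).length)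
    (h2 : (qA (pre ρ (r k)) ++ z).length < 64 * N k) :
    Hop r ρ J O (qA (pre ρ (r k)) ++ z) = true := by
  rw [Hop_key ⟨k, pwA _ _, h1, h2⟩]
  exact ⟨k, pwA _ _, h1, h2, Or.inl (isA_app _ _)⟩

/-- other strings -/
theorem Hop_qA_junk {u z : List Bool} (h : ∀ k, u ≠ pre ρ (r k)) :
    Hop r ρ J O (qA u ++ z) = J (qA u ++ z) := by
  apply Hop_junk
  rintro ⟨k, hk, _⟩
  rw [pwA] at hk
  exact h k hk

/-- universal questions -/
theorem Hop_qB {k : ℕ} {w z : List Bool} (hw : 8 * w.tail.length + 8 ≤ N k)
    (h1 : N k ≤ (qB (pre ρ (r k)) w ++ z).length)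
    (h2 : (qB (pre ρ (r k)) w ++ z).length < 64 * N k) :
    Hop r ρ J O (qB (pre ρ (r k)) w ++ z) = KK O w := by
  rw [Bool.eq_iff_iff, Hop_key ⟨k, pwB _ _ _, h1, h2⟩]
  constructor
  · rintro ⟨i, hi, _, _, h5⟩
    rw [isB_app, qwB] at h5
    rcases h5 with h5 | h5
    · exact absurd h5 (by simp)
    · exact h5.2
  · intro h
    refine ⟨k, pwB _ _ _, h1, h2, Or.inr ⟨?_, ?_⟩⟩
    · rw [qwB]; exact hw
    · rw [qwB]; exact h

end

/-! ### linearity in the right part -/

open Classical in
/-- the vector of a question -/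
noncomputable def ev {ext : List Bool → Finset (List Bool)} (hext : Adm ext) (q p : List Bool) :
    ZMod 2 := zb ((exists_clo hext (fun _ => false) fun x => decide (x = p)).choose q)

section

variable {ext : List Bool → Finset (List Bool)} (hext : Adm ext)

theorem ev_spec (p : List Bool) : IsClo ext (fun _ => false) (fun x => decide (x = p))
    (exists_clo hext (fun _ => false) fun x => decide (x = p)).choose :=
  (exists_clo hext (fun _ => false) fun x => decide (x = p)).choose_spec

theorem ev_nil (p : List Bool) : ev hext [] p = 0 := by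
  unfold ev
  rw [(ev_spec hext p).nil]
  rfl

theorem ev_one (p : List Bool) : ev hext [false] p = 0 := by
  unfold ev
  rw [(ev_spec hext p).one]
  rfl

theorem ev_left (s p : List Bool) : ev hext (false :: false :: s) p = 0 := by
  unfold ev
  rw [(ev_spec hext p).left]
  rfl

theorem ev_right (x p : List Bool) : ev hext (true :: x) p = if x = p then 1 else 0 := by
  unfold ev
  rw [(ev_spec hext p).right]
  unfold zb
  simp

theorem zb_par (F : Finset (List Bool)) (O : Lang) : zb (par F O) = ∑ s ∈ F, zb (O s) :=
  b2_par F O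

theorem ev_mid (w p : List Bool) : ev hext (false :: true :: w) p = ∑ s ∈ ext w, ev hext s p := by
  unfold ev
  rw [(ev_spec hext p).mid, zb_par]

/-- the effect of a change of the right part -/
theorem clo_dec {T : Type} [Fintype T] {pos : T → List Bool} (hinj : Function.Injective pos)
    {X H H1 O O1 : Lang} (h : IsClo ext X H O) (h1 : IsClo ext X H1 O1)
    (hH : ∀ c, H1 (pos c) = false) (hH' : ∀ p, (∀ c, pos c ≠ p) → H p = H1 p) (q : List Bool) :
    zb (O q) = zb (O1 q) + ∑ c, ev hext q (pos c) * zb (H (pos c)) := by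
  classical
  induction hn : q.length using Nat.strong_induction_on generalizing q with
  | _ n ih =>
    subst hn
    match q with
    | [] => rw [h.nil, h1.nil]; simp [ev_nil]
    | [false] => rw [h.one, h1.one]; simp [ev_one]
    | false :: false :: s => rw [h.left, h1.left]; simp [ev_left]
    | true :: x =>
      rw [h.right, h1.right]
      by_cases hx : ∃ c, pos c = x
      · obtain ⟨c0, rfl⟩ := hx
        rw [hH c0, Finset.sum_eq_single c0]
        · rw [ev_right, if_pos rfl, one_mul]
          show zb (H (pos c0)) = zb false + _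
          rw [show zb false = 0 from rfl, zero_add]
        · intro c _ hc
          rw [ev_right, if_neg fun he => hc (hinj he.symm), zero_mul]
        · intro hc
          exact absurd (Finset.mem_univ _) hc
      · push Not at hx
        rw [hH' x hx, Finset.sum_eq_zero, add_zero]
        intro c _
        rw [ev_right, if_neg fun he => hx c he.symm, zero_mul]
    | false :: true :: w =>
      rw [h.mid, h1.mid, zb_par, zb_par]
      have h2 : ∀ s ∈ ext w, zb (O s) = zb (O1 s) + ∑ c, ev hext s (pos c) * zb (H (pos c)) := by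
        intro s hs
        have hl := hext w s hs
        exact ih s.length (by simp only [List.length_cons]; omega) s rfl
      rw [Finset.sum_congr rfl h2, Finset.sum_add_distrib, Finset.sum_comm]
      congr 1
      refine Finset.sum_congr rfl fun c _ => ?_
      rw [ev_mid, Finset.sum_mul]

end

end Pool.Agent.APS
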