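import Pool.Agent.Lib_helper78.APS.Win
import Pool.Agent.Lib_helper64.TDF.CPT

/-!
# Resampling, and the choice of an infinite sequence (MP_5d94c0_lc)
-/

set_option autoImplicit false
set_option linter.unusedSectionVars false

namespace Pool.Agent.APS

open Pool.Agent.CK

/-- the strings of length less than `L` -/
abbrev CL (L : ℕ) : Type := {s : List Bool // s.length < L}

theorem finite_CL (L : ℕ) : Finite (CL L) :=
  ((List.finite_length_le Bool L).subset fun p (hp : p.length < L) => hp.le).to_subtype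

noncomputable instance instFintypeCL (L : ℕ) : Fintype (CL L) := @Fintype.ofFinite _ (finite_CL L)

/-- the language of a table -/
def ov (L : ℕ) (ω : CL L → Bool) : Lang := fun s => if h : s.length < L then ω ⟨s, h⟩ else false

theorem ov_lt {L : ℕ} (ω : CL L → Bool) {s : List Bool} (h : s.length < L) :
    ov L ω s = ω ⟨s, h⟩ := by
  unfold ov
  rw [dif_pos h]

theorem ov_ge {L : ℕ} (ω : CL L → Bool) {s : List Bool} (h : L ≤ s.length) :
    ov L ω s = false := by
  unfold ov
  rw [dif_neg (by omega)]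

section

variable {S : Type} [Fintype S] [DecidableEq S] {ι : S → List Bool} (hι : Function.Injective ι) {L : ℕ}
  (hL : ∀ a, (ι a).length < L)

/-- the new table -/
noncomputable def swp (ι : S → List Bool) (L : ℕ) (p : (CL L → Bool) × (S → Bool)) :
    (CL L → Bool) × (S → Bool) :=
  (fun c => gl ι (ov L p.1) p.2 c.1, fun a => ov L p.1 (ι a))

include hL in
theorem ov_swp (p : (CL L → Bool) × (S → Bool)) : ov L (swp ι L p).1 = gl ι (ov L p.1) p.2 := by
  funext s
  by_cases h : s.length < L
  · rw [ov_lt _ h]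
    rfl
  · rw [ov_ge _ (by omega), gl_out, ov_ge _ (by omega)]
    rintro a rfl
    exact h (hL a)

include hι hL in
theorem swp_swp (p : (CL L → Bool) × (S → Bool)) : swp ι L (swp ι L p) = p := by
  apply Prod.ext
  · funext c
    show gl ι (ov L (swp ι L p).1) (swp ι L p).2 c.1 = p.1 c
    by_cases h : ∃ a, ι a = c.1
    · obtain ⟨a, ha⟩ := h
      rw [← ha, gl_in hι]
      show ov L p.1 (ι a) = p.1 c
      rw [ha, ov_lt _ c.2]
    · push Not at h
      rw [gl_out _ _ h, ov_swp hL, gl_out _ _ h, ov_lt _ c.2]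
  · funext a
    show ov L (swp ι L p).1 (ι a) = p.2 a
    rw [ov_swp hL, gl_in hι]

include hι hL in
/-- **Resampling.** -/
theorem resample (f : Lang → ℝ) :
    ∑ ω : CL L → Bool, ∑ η : S → Bool, f (gl ι (ov L ω) η) =
      2 ^ Fintype.card S * ∑ ω : CL L → Bool, f (ov L ω) := by
  classical
  rw [← Fintype.sum_prod_type']
  have h1 : ∑ p : (CL L → Bool) × (S → Bool), f (gl ι (ov L p.1) p.2) =
      ∑ p : (CL L → Bool) × (S → Bool), f (ov L p.1) := by
    refine Eq.trans (Finset.sum_congr rfl fun p _ => ?_)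
      (Equiv.sum_comp (⟨swp ι L, swp ι L, swp_swp hι hL, swp_swp hι hL⟩ :
        ((CL L → Bool) × (S → Bool)) ≃ ((CL L → Bool) × (S → Bool))) fun p => f (ov L p.1))
    show f (gl ι (ov L p.1) p.2) = f (ov L (swp ι L p).1)
    rw [ov_swp hL]
  rw [h1, Fintype.sum_prod_type, Finset.mul_sum]
  refine Finset.sum_congr rfl fun ω _ => ?_
  show ∑ _y : S → Bool, f (ov L ω) = _
  rw [Finset.sum_const, Finset.card_univ, nsmul_eq_mul]
  congr 1
  simp

include hι hL in
open Classical in
/-- the probability that given positions are all true -/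
theorem count_true :
    2 ^ Fintype.card S * ((Finset.univ.filter fun ω : CL L → Bool =>
      ∀ a, ov L ω (ι a) = true).card : ℝ) ≤ Fintype.card (CL L → Bool) := by
  have h1 := resample hι hL fun ω => if ∀ a, ω (ι a) = true then 1 else 0
  rw [Finset.card_filter, Nat.cast_sum]
  have h2 : (∑ ω : CL L → Bool, ((if ∀ a, ov L ω (ι a) = true then 1 else 0 : ℕ) : ℝ)) =
      ∑ ω : CL L → Bool, if ∀ a, ov L ω (ι a) = true then (1 : ℝ) else 0 :=
    Finset.sum_congr rfl fun ω _ => by push_cast; rfl
  rw [h2, ← h1]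
  have h3 : ∀ ω : CL L → Bool, ∑ η : S → Bool,
      (if ∀ a, gl ι (ov L ω) η (ι a) = true then (1 : ℝ) else 0) = 1 := by
    intro ω
    rw [Finset.sum_eq_single fun _ => true]
    · rw [if_pos]
      intro a
      rw [gl_in hι]
    · intro η _ hη
      rw [if_neg]
      intro h
      apply hη
      funext a
      rw [← h a, gl_in hι]
    · intro h
      exact absurd (Finset.mem_univ _) h
  rw [Finset.sum_congr rfl fun ω _ => h3 ω, Finset.sum_const, Finset.card_univ, nsmul_eq_mul,
    mul_one]

end

open Classical in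
/-- **The choice of the sequence**: countably many local events of small total probability are
avoided. -/
theorem exists_omega (A : ℕ → Lang → Prop) (len : ℕ → ℕ)
    (hloc : ∀ j ω ω', (∀ s : List Bool, s.length < len j → ω s = ω' s) → A j ω → A j ω')
    (hprob : ∀ j L, len j ≤ L → 2 ^ (j + 2) * ((Finset.univ.filter fun ω : CL L → Bool =>
      A j (ov L ω)).card : ℝ) ≤ Fintype.card (CL L → Bool)) :
    ∃ ω : Lang, ∀ j, ¬ A j ω := by
  have h1 : ∀ n : ℕ, ∃ ω : Lang, ∀ j ≤ n, ¬ A j ω := by
    intro n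
    obtain ⟨L, hL⟩ : ∃ L, ∀ j ≤ n, len j ≤ L :=
      ⟨(Finset.range (n + 1)).sup len, fun j hj =>
        Finset.le_sup (f := len) (Finset.mem_range.2 (by omega))⟩
    by_contra hc
    push Not at hc
    have h2 : (Finset.univ : Finset (CL L → Bool)) ⊆ (Finset.range (n + 1)).biUnion fun j =>
        Finset.univ.filter fun ω : CL L → Bool => A j (ov L ω) := by
      intro ω _
      obtain ⟨j, hj, h⟩ := hc (ov L ω)
      exact Finset.mem_biUnion.2 ⟨j, Finset.mem_range.2 (by omega),
        Finset.mem_filter.2 ⟨Finset.mem_univ _, h⟩⟩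
    have h3 := (Finset.card_le_card h2).trans Finset.card_biUnion_le
    rw [Finset.card_univ] at h3
    have h4 : (Fintype.card (CL L → Bool) : ℝ) ≤ ∑ j ∈ Finset.range (n + 1),
        (Fintype.card (CL L → Bool) : ℝ) / 4 * (1 / 2) ^ j := by
      have h5 : (Fintype.card (CL L → Bool) : ℝ) ≤ ∑ j ∈ Finset.range (n + 1),
          ((Finset.univ.filter fun ω : CL L → Bool => A j (ov L ω)).card : ℝ) := by
        rw [← Nat.cast_sum]
        exact_mod_cast h3
      refine h5.trans (Finset.sum_le_sum fun j hj => ?_)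
      have h6 := hprob j L (hL j (by have := Finset.mem_range.1 hj; omega))
      have h7 : (0 : ℝ) < 2 ^ (j + 2) := by positivity
      have h8 : (Fintype.card (CL L → Bool) : ℝ) / 4 * (1 / 2) ^ j =
          (Fintype.card (CL L → Bool) : ℝ) / 2 ^ (j + 2) := by
        rw [pow_add, one_div, inv_pow]
        field_simp
        norm_num
      rw [h8, le_div_iff₀ h7, mul_comm]
      exact h6
    rw [← Finset.mul_sum] at h4
    have hg := sum_geometric_two_le (n + 1)
    have hpos : (0 : ℝ) < Fintype.card (CL L → Bool) := by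
      exact_mod_cast Fintype.card_pos
    have h9 : (Fintype.card (CL L → Bool) : ℝ) / 4 * ∑ i ∈ Finset.range (n + 1), (1 / 2 : ℝ) ^ i ≤
        (Fintype.card (CL L → Bool) : ℝ) / 4 * 2 := mul_le_mul_of_nonneg_left hg (by positivity)
    linarith
  choose Ω hΩ using h1
  obtain ⟨_, Tab, -, hag⟩ := TD.compactness (fun _ => ⟨fun _ => 1, fun _ _ => 1⟩)
    (fun N _ z => [Ω N z]) (fun N e z => Nat.one_le_pow _ _ (by omega))
  refine ⟨fun z => (Tab 0 z).headD false, fun j hj => ?_⟩
  obtain ⟨M, hM, -, hT⟩ := hag (max (len j) j)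
  have h2 := le_max_left (len j) j
  have h3 := le_max_right (len j) j
  refine hΩ M j (by omega) (hloc j _ _ (fun s hs => ?_) hj)
  show (Tab 0 s).headD false = Ω M s
  rw [hT 0 (Nat.zero_le _) s (by omega)]
  rfl

end Pool.Agent.APS
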