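import Pool.Agent.Lib_helper78.AEC.NumC
import Pool.Agent.Lib_helper78.AEC.Rd
import Pool.Agent.Lib_helper78.PCW.H

/-!
# Trapdoor permutations relative to closed oracles, for small families of decision trees

As `Lib_helper94/TCA/SecE.lean`, with an arbitrary small family of decision trees in place of the
programs.
-/

set_option autoImplicit false

namespace Pool.Agent.APS

open Pool.Agent.CK Pool.Agent.TD Pool.Agent.TPR Pool.Agent.ADV Pool.Agent.CKP Pool.Agent.AEC

theorem sx_false (A : Lang) : sx A (fun _ => false) = A := by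
  funext w
  exact Bool.xor_false _

/-- a small family of trees -/
structure FamG (T : ℕ → ℕ) (G : Fam) : Prop where
  card : ∀ n, CardBd (G n) (n + 1 + (T n + 1) + (T n + 1))
  depth : ∀ n, ∀ A ∈ G n, ∀ x, (A x).depth ≤ T n
  allQ : ∀ n, ∀ A ∈ G n, ∀ x, (A x).AllQ fun q => q.length < mqG T n

/-- the family, with renamed questions -/
def RG (G : Fam) (n : ℕ) : Set (X (2 * n) → DT Str) :=
  {B | ∃ A ∈ G n, B = fun x => AFF.ren (A x)}

theorem RG_card {T : ℕ → ℕ} {G : Fam} (hG : FamG T G) (n : ℕ) :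
    CardBd (RG G n) (n + 1 + (T n + 1) + (T n + 1)) := by
  have hc := card_image (fun A : X (2 * n) → DT Str => fun x => AFF.ren (A x)) (hG.card n)
  refine card_mono hc ?_ le_rfl
  rintro B ⟨A, hA, rfl⟩
  exact ⟨A, hA, rfl⟩

theorem RG_ok {T : ℕ → ℕ} {G : Fam} (hG : FamG T G) (n : ℕ) : ∀ B ∈ RG G n, ∀ x,
    (B x).depth ≤ T n ∧ (B x).AllQ fun q => q.length ≤ lqG T n := by
  rintro B ⟨A, hA, rfl⟩ x
  constructor
  · show (AFF.ren (A x)).depth ≤ T n
    rw [AFF.depth_ren]
    exact hG.depth n A hA x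
  · show (AFF.ren (A x)).AllQ _
    refine AFF.allQ_ren _ _ ((hG.allQ n A hA x).mono ?_)
    intro q hq
    show (true :: q).length ≤ lqG T n
    rw [List.length_cons]
    unfold lqG
    omega

/-- the simulations with one of the further oracles -/
noncomputable def FGG (G : Fam) (T K : ℕ → ℕ) {Ω : Type} [Fintype Ω] [DecidableEq Ω]
    (Λ : MSK.LS Ω) (oA : Str × Finset Str → Lang) (N : ℕ) : Fam := fun n =>
  {A'' | n ≤ N ∧ ∃ p ∈ IX T K n, ∃ A ∈ RG G n,
    ∃ A' ∈ Λ.SimC (lqG T n) (sqG T K n) (gqG T K n) (T n) (dqG T n) {A},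
      A'' = fun x => hw (fun _ => false) (hw (oA p) (A' x))}

theorem FGG_ok {G : Fam} {T : ℕ → ℕ} (hG : FamG T G) (K : ℕ → ℕ) {Ω : Type} [Fintype Ω]
    [DecidableEq Ω] (Λ : MSK.LS Ω) (oA : Str × Finset Str → Lang) (N n : ℕ) :
    CardBd (FGG G T K Λ oA N n) (aqG' T K n) ∧
      ∀ A ∈ FGG G T K Λ oA N n, ∀ x, (A x).depth ≤ dqG T n := by
  constructor
  · have hc := card_image (fun p : (Str × Finset Str) × (X (2 * n) → DT Str) => fun x =>
        hw (fun _ => false) (hw (oA p.1) (p.2 x)))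
      (card_prod (IX_card T K n)
        (Λ.card_simC (lqG T n) (sqG T K n) (gqG T K n) (T n) (dqG T n) _ (RG G n)
          (RG_card hG n)))
    refine card_mono hc ?_ ?_
    · rintro A'' ⟨-, v, hv, A, hA, A', ⟨A1, hA1, h1⟩, rfl⟩
      rw [Set.mem_singleton_iff] at hA1
      subst hA1
      exact ⟨(v, A'), ⟨hv, ⟨A1, hA, h1⟩⟩, rfl⟩
    · unfold aqG' aqG
      omega
  · rintro A'' ⟨-, v, hv, A, hA, A', ⟨A1, hA1, ρ, hρ, γ, hγ, r, hr, hd, rfl⟩, rfl⟩ x
    exact (depth_hw _ _).trans ((depth_hw _ _).trans (hd x))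

/-- the number of successes of a tree -/
noncomputable def sc (S : Sec) (n : ℕ) (A : X (2 * n) → DT Str) (O : Lang) : ℕ :=
  (Finset.univ.filter fun x : X (2 * n) => (A x).eval O = vv S n x).card

section

variable {ext : Str → Finset Str}

/-- Secrets and junk that defeat all adversaries up to a given level. -/
theorem horizonT (hext : Adm ext) (R Pt : Lang) (hP : AFF.GenP (TT ext) Pt) {T K : ℕ → ℕ}
    {G : Fam} (hG : FamG T G) {n0 : ℕ} (hN : NumG T K n0) (N : ℕ) :
    ∃ (S : Sec) (J : Lang), ∀ n, n0 ≤ n → n ≤ N → ∀ p ∈ IX T K n, ∀ O : Lang,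
      IsClo ext (join (AFF.emb Pt (pX S) J) R) (dl p.2) O →
      ∀ A ∈ G n, T n * sc S n A O < 4 ^ n := by
  classical
  obtain ⟨L, hL⟩ : ∃ L, ∀ n ≤ N, mqG T n ≤ L :=
    ⟨(Finset.range (N + 1)).sup (mqG T), fun n hn =>
      Finset.le_sup (f := mqG T) (Finset.mem_range.2 (by omega))⟩
  have hex := fun p : Str × Finset Str =>
    exists_clo hext (join (fun _ => false) R) (dl p.2)
  choose oA hoA using hex
  obtain ⟨S, hS⟩ := baseG n0 (aqG' T K) (dqG T) kq (fun n => 2 * T n) (fun n _ => numq1 n)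
    hN.num2 hN.num3 N
    (FGG G T K (AFF.ls (TT_short hext) Pt 0 L) oA N) (fun n _ => FGG_ok hG K _ oA N n)
    (fun n hn => by
      rw [Set.eq_empty_iff_forall_notMem]
      rintro A ⟨h1, _⟩
      omega)
  have hX : ∀ n, Fintype.card (X (2 * n)) = 4 ^ n := by
    intro n
    rw [card_X_TD, pow_mul]
    norm_num
  have hmask : ∀ n, n0 ≤ n → n ≤ N → ∀ A ∈ RG G n, ∀ p ∈ IX T K n,
      2 ^ (aqG T K n + n + 2) * (Finset.univ.filter fun om : AFF.Cell 0 L → Bool =>
        4 ^ n ≤ T n * MSK.LS.hit (vv S n) A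
          ((AFF.ls (TT_short hext) Pt 0 L).ans (join (pX S) (oA p)) om)).card <
        Fintype.card (AFF.Cell 0 L → Bool) := by
    intro n hn hnN A hA p hp
    have h1 := (AFF.ls (TT_short hext) Pt 0 L).mask_lemma
      (AFF.gen_ls (TT_short hext) hP 0 L (lqG T n)) (join (pX S) (oA p)) A (T n)
      (RG_ok hG n A hA) (vv S n) (T n) (eqG T K n) (hN.pos n hn) (by
        intro A' hA'
        have h2 := hS n hn (fun x => TPR.hw (fun _ => false) (TPR.hw (oA p) (A' x)))
          ⟨hnN, p, hp, _, hA, A', hA', rfl⟩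
        rw [hX]
        refine lt_of_le_of_lt (le_of_eq ?_) h2
        unfold MSK.LS.hit hits
        congr 2
        apply Finset.filter_congr
        intro x _
        rw [eval_hw, eval_hw]
        rfl)
    rw [hX] at h1
    exact h1
  obtain ⟨om, hom⟩ := MSK.exists_good (Γ := AFF.Cell 0 L → Bool) (N + 1)
    (ι := fun n => (X (2 * n) → DT Str) × (Str × Finset Str))
    (fun n => if n0 ≤ n then RG G n ×ˢ IX T K n else ∅) (aqG T K)
    (fun n _ => by
      by_cases hn : n0 ≤ n
      · simp only [if_pos hn]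
        refine card_mono (card_prod (RG_card hG n) (IX_card T K n)) (fun _ h => h) ?_
        unfold aqG
        omega
      · simp only [if_neg hn]
        refine ⟨Set.finite_empty, ?_⟩
        rw [Set.ncard_empty]
        exact Nat.zero_le _)
    (fun n p => Finset.univ.filter fun om : AFF.Cell 0 L → Bool =>
        4 ^ n ≤ T n * MSK.LS.hit (vv S n) p.1
          ((AFF.ls (TT_short hext) Pt 0 L).ans (join (pX S) (oA p.2)) om))
    (fun n hn p hp => by
      by_cases hn' : n0 ≤ n
      · rw [if_pos hn'] at hp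
        exact (hmask n hn' (by omega) p.1 hp.1 p.2 hp.2).le
      · rw [if_neg hn'] at hp
        exact absurd hp (Set.notMem_empty _))
  refine ⟨S, AFF.ovr 0 L (fun _ => false) om, fun n hn hnN p hp O hO A hA => ?_⟩
  have h1 := hom n (by omega) (fun x => AFF.ren (A x), p) (by
    rw [if_pos hn]
    exact ⟨⟨A, hA, rfl⟩, hp⟩)
  rw [Finset.mem_filter, not_and] at h1
  have h2 := not_le.1 (h1 (Finset.mem_univ _))
  refine lt_of_le_of_lt (le_of_eq ?_) h2
  congr 1
  unfold sc MSK.LS.hit
  congr 1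
  apply Finset.filter_congr
  intro x _
  have e : (AFF.ren (A x)).eval
      ((AFF.ls (TT_short hext) Pt 0 L).ans (join (pX S) (oA p)) om) =
      (A x).eval O := by
    rw [AFF.eval_ren]
    refine DT.eval_congr _ _ (hG.allQ n A hA x) fun q hq => ?_
    refine ans_true hext Pt (pX S) (fun _ => false) R _ (oA p) O (fun _ => false) L om (hoA p)
      (by rw [sx_false]; exact hO) q ?_
    exact hq.le.trans (hL n hnN)
  show (A x).eval O = vv S n x ↔ (AFF.ren (A x)).eval _ = vv S n x
  rw [e]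

/-- Secrets and junk that defeat all adversaries. -/
theorem secretsT (hext : Adm ext) (R Pt : Lang) (hP : AFF.GenP (TT ext) Pt) {T K : ℕ → ℕ}
    {G : Fam} (hG : FamG T G) {n0 : ℕ} (hNum : NumG T K n0) :
    ∃ (S : Sec) (J : Lang), ∀ n, n0 ≤ n → ∀ p ∈ IX T K n, ∀ O : Lang,
      IsClo ext (join (AFF.emb Pt (pX S) J) R) (dl p.2) O →
      ∀ A ∈ G n, T n * sc S n A O < 4 ^ n := by
  choose Ss Js hSs using horizonT hext R Pt hP hG hNum
  obtain ⟨S, Tab, -, hag⟩ := compactness Ss (fun N _ z => [Js N z])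
    (fun N e z => Nat.one_le_pow _ _ (by omega))
  refine ⟨S, fun z => (Tab 0 z).headD false, fun n hn p hp O hO A hA => ?_⟩
  obtain ⟨N, hbN, hN, hT⟩ := hag (mqG T n)
  have hnN : n ≤ N := by
    have : n ≤ mqG T n := by unfold mqG; omega
    omega
  obtain ⟨O', hO'⟩ := exists_clo hext (join (AFF.emb Pt (pX (Ss N)) (Js N)) R) (dl p.2)
  have h1 := hSs N n hn hnN p hp O' hO' A hA
  have hag' : Agree (mqG T n) S (Ss N) (fun _ _ => []) (fun _ _ => []) :=
    ⟨hN, fun _ _ _ _ => rfl⟩
  have hXX : ∀ q : Str, q.length ≤ mqG T n → pX S q = pX (Ss N) q := by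
    intro q hq
    match q with
    | [] => rfl
    | true :: q => rfl
    | false :: q =>
      simp only [List.length_cons] at hq
      exact orc_agree hag' q (by omega)
  have hOO : ∀ s : Str, s.length ≤ mqG T n → O s = O' s := by
    refine clo_congr hext hO hO' (mqG T n) (fun s hs => ?_) (fun s _ => rfl)
    match s with
    | [] => rfl
    | true :: q => rfl
    | [false] => rfl
    | false :: true :: q => rfl
    | [false, false] => rfl
    | false :: false :: b :: q =>
      simp only [List.length_cons] at hs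
      show (if b = Pt q then pX S q else (Tab 0 q).headD false) =
        (if b = Pt q then pX (Ss N) q else Js N q)
      have e1 : pX S q = pX (Ss N) q := hXX q (by omega)
      have e2 : (Tab 0 q).headD false = Js N q := by
        rw [hT 0 (Nat.zero_le _) q (by omega)]
        rfl
      rw [e1, e2]
  have e : sc S n A O = sc (Ss N) n A O' := by
    unfold sc
    have hv : vv S n = vv (Ss N) n := agr_vv (hN n (by unfold mqG; omega)).2
    congr 1
    apply Finset.filter_congr
    intro x _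
    rw [hv, DT.eval_congr (O := O) (O' := O') _ _ (hG.allQ n A hA x) fun q hq => hOO q hq.le]
  rw [e]
  exact h1

end

end Pool.Agent.APS
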