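import Pool.Agent.Lib_helper78.APS.Sec
import Pool.Agent.Lib_helper78.APS.Res

/-!
# The average success of an adversary (MP_5d94c0_lc)
-/

set_option autoImplicit false
set_option linter.unusedSectionVars false

namespace Pool.Agent.APS

open Pool.Agent.CK Pool.Agent.TD Pool.Agent.TPR Pool.Agent.CKP Pool.Agent.PSL Pool.Agent.AEC

open Pool.Agent.PCW (N N_mono N_lt N_le_iff N_pos N_two N_succ)

/-- the scale of a level -/
noncomputable def jj (n : ℕ) : ℕ := PCW.kk (n + 1) - 2

/-- the lowest level of the junk that is masking -/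
noncomputable def An (n : ℕ) : ℕ := 64 * N (jj n)

/-- time, advice -/
def Tn (n : ℕ) : ℕ := 2 ^ (n / 20)

/-- size of tables -/
def Kn (n : ℕ) : ℕ := 2 ^ (n / 5)

/-- length of the questions -/
def Bn (n : ℕ) : ℕ := mqG Tn n

theorem jj_eq {j n : ℕ} (h1 : N (j + 1) ≤ n) (h2 : n < N (j + 2)) : jj n = j := by
  have h3 : PCW.kk (n + 1) ≤ j + 2 := PCW.kk_le (by omega)
  have h4 : j + 2 ≤ PCW.kk (n + 1) := by
    by_contra hc
    have h5 := PCW.le_N_kk (n + 1)
    have h6 := N_mono (by omega : PCW.kk (n + 1) ≤ j + 1)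
    omega
  unfold jj
  omega

section

variable {ext : List Bool → Finset (List Bool)} (hext : Adm ext)

/-- the ideal adversary -/
noncomputable def idT (n : ℕ) (c : Cmd) (w z : Str) : X (2 * n) → DT Str := fun x =>
  (idD hext (An n) (Bn n) z ([c], init x.1 w) []).map fun cf => cf.2 0

/-- the ideal adversaries -/
def Gn : Fam := fun n => {A | ∃ c : Cmd, Encodable.encode c ≤ n ∧ ∃ w : Str, w.length ≤ Tn n ∧
  ∃ z : Str, z.length ≤ Tn n ∧ A = idT hext n c w z}

theorem famG : FamG Tn (Gn hext) where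
  card n := by
    have hc := card_image (fun p : (ℕ × Str) × Str =>
        idT hext n ((Encodable.decode p.1.1 : Option Cmd).getD Cmd.skip) p.1.2 p.2)
        (card_prod (card_prod (card_nat n) (card_str (Tn n))) (card_str (Tn n)))
    refine card_mono hc ?_ le_rfl
    rintro A ⟨c, hcn, w, hw, z, hz, rfl⟩
    refine ⟨((Encodable.encode c, w), z), ⟨⟨hcn, hw⟩, hz⟩, ?_⟩
    simp only [Encodable.encodek, Option.getD_some]
  depth n := by
    rintro A ⟨c, hcn, w, hw, z, hz, rfl⟩ x
    unfold idT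
    rw [DT.depth_map]
    exact (idD_depth hext _ _ _ _ _).trans hz
  allQ n := by
    rintro A ⟨c, hcn, w, hw, z, hz, rfl⟩ x
    unfold idT
    refine mach_allQ_map _ _ _ (idD_allQ hext _ _ _ _ _ (2 * n + Tn n) (mqG Tn n)
      (mach_init_len x.1 w _ ?_ ?_) ?_)
    · rw [x.2]; omega
    · omega
    · unfold mqG
      omega

open Classical in
/-- the number of successes -/
noncomputable def sx (S : Sec) (O : Lang) (n : ℕ) (c : Cmd) (v : Str) (l t : ℕ) : ℝ :=
  ∑ w : X l, ∑ x : X (2 * n), if (run O c x.1 (v ++ w.1) t).2 0 = vv S n x then (1 : ℝ) else 0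

open Classical in
theorem stage_E {Y : Lang} {r : ℕ → ℕ} {S : Sec} {j m n : ℕ} (hw : Wnd r j m (An n) (Bn n))
    (ω : Lang) {O1 : Lang} (hO1 : IsClo ext Y (HL ext Y r (An n) ω) O1)
    (hsec : ∀ A ∈ Gn hext n, Tn n * sc S n A O1 < 4 ^ n) {c : Cmd}
    (hc : Encodable.encode c ≤ n) {v : Str} {l t : ℕ} (hv : v.length + l ≤ Tn n)
    (ht : t ≤ Tn n) :
    (∑ η : Fin m → Bool, ∑ J : Pos (An n) (Bn n) → Bool,
      sx S (OW ext Y r (chg2 (r j) m (An n) (Bn n) ω η J)) n c v l t) ≤
      Fintype.card (Pos (An n) (Bn n) → Bool) *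
        (2 ^ m * (2 ^ l * (4 ^ n / Tn n)) + 2 ^ l * (4 ^ n * t)) := by
  have hT : (0 : ℝ) < Tn n := by
    unfold Tn
    positivity
  choose O' hO' using fun (η : Fin m → Bool) (J : Pos (An n) (Bn n) → Bool) =>
    exists_clo hext Y (HL ext Y r (Bn n) (chg2 (r j) m (An n) (Bn n) ω η J))
  have hcardX : (Fintype.card (X (2 * n)) : ℝ) = 4 ^ n := by
    rw [card_X_TD, pow_mul]
    norm_num
  have hcardL : (Fintype.card (X l) : ℝ) = 2 ^ l := by
    rw [card_X_TD]
    norm_num
  -- the real runs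
  have hrun : ∀ (η : Fin m → Bool) (J : Pos (An n) (Bn n) → Bool) (w : X l) (x : X (2 * n)),
      run (OW ext Y r (chg2 (r j) m (An n) (Bn n) ω η J)) c x.1 (v ++ w.1) t =
        (step (O' η J))^[t] ([c], init x.1 (v ++ w.1)) := by
    intro η J w x
    rw [run_congrG Tn c x (v ++ w.1) (by rw [List.length_append, w.2]; exact hv) t ht
      (clo_congr hext (OW_clo hext Y r _) (hO' η J) (mqG Tn n) (fun _ _ => rfl)
        (fun s hs => (HL_lt (by unfold Bn; omega)).symm))]
    rfl
  -- one input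
  have hone : ∀ (w : X l) (x : X (2 * n)), (∑ η : Fin m → Bool,
      ∑ J : Pos (An n) (Bn n) → Bool,
        if (run (OW ext Y r (chg2 (r j) m (An n) (Bn n) ω η J)) c x.1 (v ++ w.1) t).2 0 =
          vv S n x then (1 : ℝ) else 0) ≤
      Fintype.card (Pos (An n) (Bn n) → Bool) * (2 ^ m * avg t (fun z =>
        if (idT hext n c (v ++ w.1) z x).eval O1 = vv S n x then 1 else 0) + t) := by
    intro w x
    have h1 := win hext hw ω hO1 O' hO' (fun cf => cf.2 0 = vv S n x) t
      ([c], init x.1 (v ++ w.1))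
    refine le_trans (le_of_eq ?_) (h1.trans (le_of_eq ?_))
    · refine Finset.sum_congr rfl fun η _ => Finset.sum_congr rfl fun J _ => ?_
      rw [hrun]
      split_ifs <;> rfl
    · congr 4
      funext z
      unfold idT
      rw [DT.eval_map]
      split_ifs <;> rfl
  -- the ideal runs
  have hid : ∀ w : X l, (∑ x : X (2 * n), avg t (fun z =>
      if (idT hext n c (v ++ w.1) z x).eval O1 = vv S n x then (1 : ℝ) else 0)) ≤
      4 ^ n / Tn n := by
    intro w
    rw [avg_sum]
    refine avg_le t fun z hz => ?_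
    have h1 := hsec (idT hext n c (v ++ w.1) z) ⟨c, hc, _, by
      rw [List.length_append, w.2]; exact hv, z, by omega, rfl⟩
    rw [le_div_iff₀ hT]
    have h2 : (∑ x : X (2 * n),
        if (idT hext n c (v ++ w.1) z x).eval O1 = vv S n x then (1 : ℝ) else 0) =
        (sc S n (idT hext n c (v ++ w.1) z) O1 : ℝ) := by
      unfold sc
      rw [Finset.card_filter, Nat.cast_sum]
      refine Finset.sum_congr rfl fun x _ => ?_
      push_cast
      rfl
    rw [h2]
    have h3 : ((Tn n * sc S n (idT hext n c (v ++ w.1) z) O1 : ℕ) : ℝ) < ((4 ^ n : ℕ) : ℝ) := by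
      exact_mod_cast h1
    push_cast at h3
    linarith
  have hswap : (∑ η : Fin m → Bool, ∑ J : Pos (An n) (Bn n) → Bool,
      sx S (OW ext Y r (chg2 (r j) m (An n) (Bn n) ω η J)) n c v l t) =
      ∑ w : X l, ∑ x : X (2 * n), ∑ η : Fin m → Bool, ∑ J : Pos (An n) (Bn n) → Bool,
        if (run (OW ext Y r (chg2 (r j) m (An n) (Bn n) ω η J)) c x.1 (v ++ w.1) t).2 0 =
          vv S n x then (1 : ℝ) else 0 := by
    unfold sx
    have e1 : ∀ η : Fin m → Bool, (∑ J : Pos (An n) (Bn n) → Bool, ∑ w : X l,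
        ∑ x : X (2 * n),
        if (run (OW ext Y r (chg2 (r j) m (An n) (Bn n) ω η J)) c x.1 (v ++ w.1) t).2 0 =
          vv S n x then (1 : ℝ) else 0) = ∑ w : X l, ∑ x : X (2 * n),
        ∑ J : Pos (An n) (Bn n) → Bool,
        if (run (OW ext Y r (chg2 (r j) m (An n) (Bn n) ω η J)) c x.1 (v ++ w.1) t).2 0 =
          vv S n x then (1 : ℝ) else 0 := by
      intro η
      rw [Finset.sum_comm]
      exact Finset.sum_congr rfl fun w _ => Finset.sum_comm
    rw [Finset.sum_congr rfl fun η _ => e1 η, Finset.sum_comm]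
    exact Finset.sum_congr rfl fun w _ => Finset.sum_comm
  rw [hswap]
  set C : ℝ := ((Fintype.card (Pos (An n) (Bn n) → Bool) : ℕ) : ℝ) with hC
  have hC0 : 0 ≤ C := Nat.cast_nonneg _
  calc _ ≤ ∑ w : X l, ∑ x : X (2 * n), C * (2 ^ m * avg t (fun z =>
        if (idT hext n c (v ++ w.1) z x).eval O1 = vv S n x then 1 else 0) + t) :=
        Finset.sum_le_sum fun w _ => Finset.sum_le_sum fun x _ => hone w x
    _ = ∑ w : X l, C * (2 ^ m * (∑ x : X (2 * n), avg t (fun z =>
        if (idT hext n c (v ++ w.1) z x).eval O1 = vv S n x then (1 : ℝ) else 0)) +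
          4 ^ n * t) := by
        refine Finset.sum_congr rfl fun w _ => ?_
        rw [← Finset.mul_sum, Finset.sum_add_distrib, ← Finset.mul_sum, Finset.sum_const,
          Finset.card_univ, nsmul_eq_mul, hcardX]
    _ ≤ ∑ _w : X l, C * (2 ^ m * (4 ^ n / Tn n) + 4 ^ n * t) := by
        refine Finset.sum_le_sum fun w _ => mul_le_mul_of_nonneg_left ?_ hC0
        have := hid w
        have h2 : (0 : ℝ) ≤ 2 ^ m := by positivity
        nlinarith
    _ = C * (2 ^ m * (2 ^ l * (4 ^ n / Tn n)) + 2 ^ l * (4 ^ n * t)) := by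
        rw [Finset.sum_const, Finset.card_univ, nsmul_eq_mul, hcardL]
        ring

end

end Pool.Agent.APS
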