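import Pool.Agent.Lib_helper78.APS.Orc
import Pool.Agent.Lib_helper78.PCW.C
import Pool.Agent.Lib_helper74.CKF.MACH

/-!
# The masking lemma for closed oracles (MP_5d94c0_lc)
-/

set_option autoImplicit false
set_option linter.unusedSectionVars false

namespace Pool.Agent.APS

open Pool.Agent.CK Pool.Agent.CKP Pool.Agent.PSL Pool.Agent.AEC

open Pool.Agent.PCW (N N_mono N_lt N_le_iff N_pos N_two N_succ qry)

/-! ### gluing -/

open Classical in
/-- write `η` on the positions `ι a` -/
noncomputable def gl {S : Type} (ι : S → List Bool) (ω : Lang) (η : S → Bool) : Lang := fun s =>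
  if h : ∃ a, ι a = s then η h.choose else ω s

theorem gl_in {S : Type} {ι : S → List Bool} (hι : Function.Injective ι) (ω : Lang)
    (η : S → Bool) (a : S) : gl ι ω η (ι a) = η a := by
  have h : ∃ a', ι a' = ι a := ⟨a, rfl⟩
  unfold gl
  rw [dif_pos h, hι h.choose_spec]

theorem gl_out {S : Type} {ι : S → List Bool} (ω : Lang) (η : S → Bool) {s : List Bool}
    (h : ∀ a, ι a ≠ s) : gl ι ω η s = ω s := by
  unfold gl
  rw [dif_neg (by push Not; exact h)]

/-- the positions of length from `A` to `B - 1` -/
abbrev Pos (A B : ℕ) : Type := {p : List Bool // A ≤ p.length ∧ p.length < B}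

theorem finite_Pos (A B : ℕ) : Finite (Pos A B) :=
  ((List.finite_length_le Bool B).subset fun p (hp : A ≤ p.length ∧ p.length < B) =>
    hp.2.le).to_subtype

noncomputable instance instFintypePos (A B : ℕ) : Fintype (Pos A B) :=
  @Fintype.ofFinite _ (finite_Pos A B)

/-- the secret sequence -/
def rh (ω : Lang) : ℕ → Bool := fun i => ω (false :: List.replicate i true)

/-- the junk -/
def jk (ω : Lang) : Lang := fun p => ω (true :: p)

/-- the positions of a block of the secret sequence -/
def ιV (a m : ℕ) : Fin m → List Bool := fun i => false :: List.replicate (a + i.1) true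

/-- the positions of the junk -/
def ιJ (A B : ℕ) : Pos A B → List Bool := fun p => true :: p.1

theorem ιV_inj (a m : ℕ) : Function.Injective (ιV a m) := by
  intro i j h
  unfold ιV at h
  have h1 := congrArg List.length h
  simp only [List.length_cons, List.length_replicate] at h1
  exact Fin.ext (by omega)

theorem ιJ_inj (A B : ℕ) : Function.Injective (ιJ A B) := by
  intro p p' h
  exact Subtype.ext (List.cons.inj h).2

/-! ### the process -/

/-- the next configuration -/
def nxC (cf : Config) (a : ZMod 2) : Config := step (fun _ => decide (a = 1)) cf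

/-- the question -/
def qdC (cf : Config) : List Bool := (qry cf).getD []

theorem dec_zb (b : Bool) : decide (zb b = 1) = b := by cases b <;> decide

theorem nxC_zb (O : Lang) (cf : Config) : nxC cf (zb (O (qdC cf))) = step O cf := by
  unfold nxC
  rw [dec_zb]
  refine PCW.step_congr fun q hq => ?_
  unfold qdC
  rw [hq]
  rfl

theorem step_stack (O : Lang) (cf : Config) : (step O cf).2 = (step (fun _ => false) cf).2 := by
  obtain ⟨k, s⟩ := cf
  cases k with
  | nil => rfl
  | cons c k =>
    cases c with
    | ask r c d =>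
      simp only [step]
    | _ => rfl

theorem step_len (O : Lang) (cf : Config) (a : ℕ) (h : ∀ r, (cf.2 r).length ≤ a) :
    ∀ r, ((step O cf).2 r).length ≤ a + 1 := by
  rw [step_stack]
  exact mach_step_len cf a h

theorem qdC_len (cf : Config) (a : ℕ) (h : ∀ r, (cf.2 r).length ≤ a) : (qdC cf).length ≤ a := by
  obtain ⟨k, s⟩ := cf
  cases k with
  | nil => exact Nat.zero_le _
  | cons c k =>
    cases c with
    | ask r c d => exact h r
    | _ => exact Nat.zero_le _

section

variable {ext : List Bool → Finset (List Bool)} (hext : Adm ext)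

/-- the vector of a question on the positions -/
noncomputable def evv (A B : ℕ) (q : List Bool) : Pos A B → ZMod 2 := fun c => ev hext q c.1

open Classical in
/-- the ideal process as a decision tree -/
noncomputable def idD (A B : ℕ) : List Bool → Config → List (List Bool × ZMod 2) → DT Config
  | [], cf, _ => DT.leaf cf
  | b :: z, cf, σ => if hd : ∃ a, (evv hext A B (qdC cf), a) ∈ Wa (evv hext A B) σ then
      DT.node (qdC cf) (idD A B z (nxC cf (zb false + hd.choose)) σ)
        (idD A B z (nxC cf (zb true + hd.choose)) σ)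
    else DT.node (qdC cf) (idD A B z (nxC cf (zb false + zb b)) ((qdC cf, zb b) :: σ))
        (idD A B z (nxC cf (zb true + zb b)) ((qdC cf, zb b) :: σ))

theorem idD_eval (A B : ℕ) (O : Lang) : ∀ (z : List Bool) (cf : Config)
    (σ : List (List Bool × ZMod 2)), (idD hext A B z cf σ).eval O =
      idc (evv hext A B) (fun q => zb (O q)) nxC qdC z cf σ := by
  intro z
  induction z with
  | nil => intro cf σ; rfl
  | cons b z ih =>
    intro cf σ
    rw [idD, idc]
    by_cases hd : ∃ a, (evv hext A B (qdC cf), a) ∈ Wa (evv hext A B) σ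
    · rw [dif_pos hd, dif_pos hd, DT.eval_node, ih, ih]
      cases hO : O (qdC cf)
      · rw [if_neg (by simp)]
      · rw [if_pos rfl]
    · rw [dif_neg hd, dif_neg hd, DT.eval_node, ih, ih]
      cases hO : O (qdC cf)
      · rw [if_neg (by simp)]
      · rw [if_pos rfl]

theorem idD_depth (A B : ℕ) : ∀ (z : List Bool) (cf : Config)
    (σ : List (List Bool × ZMod 2)), (idD hext A B z cf σ).depth ≤ z.length := by
  intro z
  induction z with
  | nil => intro cf σ; exact le_rfl
  | cons b z ih =>
    intro cf σ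
    rw [idD]
    split_ifs with hd
    · rw [DT.depth_node, List.length_cons]
      have h0 := ih (nxC cf (zb false + hd.choose)) σ
      have h1 := ih (nxC cf (zb true + hd.choose)) σ
      omega
    · rw [DT.depth_node, List.length_cons]
      have h0 := ih (nxC cf (zb false + zb b)) ((qdC cf, zb b) :: σ)
      have h1 := ih (nxC cf (zb true + zb b)) ((qdC cf, zb b) :: σ)
      omega

theorem idD_allQ (A B : ℕ) : ∀ (z : List Bool) (cf : Config)
    (σ : List (List Bool × ZMod 2)) (a b : ℕ), (∀ r, (cf.2 r).length ≤ a) →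
      a + z.length ≤ b → (idD hext A B z cf σ).AllQ fun q => q.length < b := by
  intro z
  induction z with
  | nil => intro cf σ a b _ _; exact trivial
  | cons b' z ih =>
    intro cf σ a b h hb
    rw [List.length_cons] at hb
    have hq := qdC_len cf a h
    rw [idD]
    split_ifs with hd
    · exact ⟨by omega, ih _ _ (a + 1) b (step_len _ _ a h) (by omega),
        ih _ _ (a + 1) b (step_len _ _ a h) (by omega)⟩
    · exact ⟨by omega, ih _ _ (a + 1) b (step_len _ _ a h) (by omega),
        ih _ _ (a + 1) b (step_len _ _ a h) (by omega)⟩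

/-! ### the world -/

variable (X : Lang) (r : ℕ → ℕ)

/-- the oracle given by `ω` -/
noncomputable def OW (ext : List Bool → Finset (List Bool)) (X : Lang) (r : ℕ → ℕ) (ω : Lang) :
    Lang := orcA ext X r (rh ω) (jk ω)

/-- its right part -/
noncomputable def HW (ext : List Bool → Finset (List Bool)) (X : Lang) (r : ℕ → ℕ) (ω : Lang) :
    Lang := HA ext X r (rh ω) (jk ω)

/-- its right part, up to the length `B - 1` -/
noncomputable def HL (ext : List Bool → Finset (List Bool)) (X : Lang) (r : ℕ → ℕ) (B : ℕ)
    (ω : Lang) : Lang := fun p => decide (p.length < B) && HW ext X r ω p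

include hext in
theorem OW_clo (ω : Lang) : IsClo ext X (HW ext X r ω) (OW ext X r ω) :=
  orcA_clo hext X r (rh ω) (jk ω)

variable {X r}

theorem HL_lt {B : ℕ} {ω : Lang} {p : List Bool} (hp : p.length < B) :
    HL ext X r B ω p = HW ext X r ω p := by
  unfold HL
  rw [decide_eq_true hp, Bool.true_and]

theorem HL_ge {B : ℕ} {ω : Lang} {p : List Bool} (hp : B ≤ p.length) :
    HL ext X r B ω p = false := by
  unfold HL
  rw [decide_eq_false (by omega), Bool.false_and]

/-- the changed `ω` -/
noncomputable def chg2 (a m A B : ℕ) (ω : Lang) (v : Fin m → Bool) (J : Pos A B → Bool) : Lang :=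
  gl (ιJ A B) (gl (ιV a m) ω v) J

section

variable {a m A B : ℕ} {ω : Lang}

theorem rh_chg2 (v : Fin m → Bool) (J : Pos A B → Bool) (i : ℕ) :
    rh (chg2 a m A B ω v J) i = gl (ιV a m) ω v (false :: List.replicate i true) := by
  unfold rh chg2
  exact gl_out _ _ fun p hp => by simp [ιJ] at hp

theorem rh_chg2_lt (v : Fin m → Bool) (J : Pos A B → Bool) {i : ℕ} (hi : i < a) :
    rh (chg2 a m A B ω v J) i = rh ω i := by
  rw [rh_chg2]
  refine gl_out _ _ fun i' hi' => ?_
  unfold ιV at hi'
  have h1 := congrArg List.length hi'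
  simp only [List.length_cons, List.length_replicate] at h1
  omega

theorem rh_chg2_in (v : Fin m → Bool) (J : Pos A B → Bool) (i : Fin m) :
    rh (chg2 a m A B ω v J) (a + i.1) = v i := by
  rw [rh_chg2]
  exact gl_in (ιV_inj a m) ω v i

theorem rh_chg2_J (v : Fin m → Bool) (J J' : Pos A B → Bool) :
    rh (chg2 a m A B ω v J) = rh (chg2 a m A B ω v J') := by
  funext i
  rw [rh_chg2, rh_chg2]

theorem jk_chg2_in (v : Fin m → Bool) (J : Pos A B → Bool) (c : Pos A B) :
    jk (chg2 a m A B ω v J) c.1 = J c := gl_in (ιJ_inj A B) _ _ c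

theorem jk_chg2_out (v : Fin m → Bool) (J : Pos A B → Bool) {p : List Bool}
    (hp : ¬ (A ≤ p.length ∧ p.length < B)) : jk (chg2 a m A B ω v J) p = jk ω p := by
  unfold jk chg2
  rw [gl_out, gl_out]
  · intro i hi
    simp [ιV] at hi
  · intro c hc
    have := (List.cons.inj hc).2
    exact hp (this ▸ c.2)

end

/-- the conditions for a window -/
structure Wnd (r : ℕ → ℕ) (j m A B : ℕ) : Prop where
  mono : StrictMono r
  blk : r (j + 1) = r j + m
  hA : A = 64 * N j
  hA' : A ≤ N (j + 1)
  hB : A ≤ B

/-- the contents -/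
noncomputable def hv (ext : List Bool → Finset (List Bool)) (X : Lang) (r : ℕ → ℕ)
    (j m A B : ℕ) (ω : Lang) (v : Fin m → Bool) (J : Pos A B → Bool) : Pos A B → ZMod 2 :=
  fun c => zb (HW ext X r (chg2 (r j) m A B ω v J) c.1)

/-- possible contents -/
def BlW (r : ℕ → ℕ) (j m A B : ℕ) (ω : Lang) (v : Fin m → Bool) (c : Pos A B) : Prop :=
  pre (rh (chg2 (r j) m A B ω v fun _ => false)) (r (j + 1)) <+: pw c.1

include hext in
theorem hyp_wnd {j m A B : ℕ} (hw : Wnd r j m A B) (ω : Lang) :
    Hyp (fun c : Pos A B => c.1.length) (BlW r j m A B ω) (hv ext X r j m A B ω) where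
  disj v v' c h h' := by
    unfold BlW at h h'
    have h1 : pre (rh (chg2 (r j) m A B ω v fun _ => false)) (r (j + 1)) =
        pre (rh (chg2 (r j) m A B ω v' fun _ => false)) (r (j + 1)) := by
      have h2 := List.prefix_of_prefix_length_le h h' (by rw [pre_length, pre_length])
      exact h2.eq_of_length (by rw [pre_length, pre_length])
    funext i
    have h2 := pre_inj h1 (r j + i.1) (by rw [hw.blk]; have := i.2; omega)
    rw [rh_chg2_in, rh_chg2_in] at h2
    exact h2
  junk v c J h := by
    unfold hv HW HA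
    rw [Hop_junk, jk_chg2_in]
    rintro ⟨k, h1, h2, h3⟩
    apply h
    unfold BlW
    rw [h1, rh_chg2_J v (fun _ => false) J]
    apply pre_prefix
    apply hw.mono.monotone
    by_contra hc
    have h4 := N_mono (by omega : k ≤ j)
    have h5 := c.2.1
    have h6 := hw.hA
    omega
  loc v c J J' h h' := by
    unfold hv
    congr 1
    unfold HW
    rw [rh_chg2_J v J J']
    refine HA_congr hext (fun _ _ => rfl) (fun p hp => ?_) ?_
    · by_cases hc : A ≤ p.length ∧ p.length < B
      · have h1 := jk_chg2_in (a := r j) (ω := ω) v J ⟨p, hc⟩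
        have h2 := jk_chg2_in (a := r j) (ω := ω) v J' ⟨p, hc⟩
        simp only at h1 h2
        rw [h1, h2]
        exact h' ⟨p, hc⟩ hp
      · rw [jk_chg2_out v J hc, jk_chg2_out v J' hc]
    · rw [jk_chg2_in, jk_chg2_in, h]

include hext in
/-- the lower part does not change -/
theorem HW_low {j m A B : ℕ} (hw : Wnd r j m A B) (ω : Lang) (v : Fin m → Bool)
    (J : Pos A B → Bool) {p : List Bool} (hp : p.length < A) :
    HW ext X r (chg2 (r j) m A B ω v J) p = HW ext X r ω p := by
  unfold HW
  refine HA_congr hext (fun k hk => ?_) (fun p' hp' => jk_chg2_out v J (by omega))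
    (jk_chg2_out v J (by omega))
  refine pre_congr fun i hi => rh_chg2_lt v J ?_
  have h1 : k ≤ j := by
    by_contra hc
    have h2 := N_mono (by omega : j + 1 ≤ k)
    have h3 := hw.hA'
    omega
  exact lt_of_lt_of_le hi (hw.mono.monotone h1)

/-- the answers of the truncated oracle -/
theorem ans_eq {j m A B : ℕ} (hw : Wnd r j m A B) {ω : Lang} {v : Fin m → Bool}
    {J : Pos A B → Bool} {O O1 : Lang}
    (hO : IsClo ext X (HL ext X r B (chg2 (r j) m A B ω v J)) O)
    (hO1 : IsClo ext X (HL ext X r A ω) O1) (q : List Bool) :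
    zb (O q) = zb (O1 q) + dt (evv hext A B q) (hv ext X r j m A B ω v J) := by
  rw [clo_dec hext (T := Pos A B) (pos := Subtype.val) Subtype.val_injective hO hO1
    (fun c => HL_ge c.2.1) ?_ q]
  · congr 1
    unfold dt evv hv
    refine Finset.sum_congr rfl fun c _ => ?_
    rw [HL_lt c.2.2]
  · intro p hp
    by_cases h1 : p.length < A
    · rw [HL_lt (lt_of_lt_of_le h1 hw.hB), HL_lt h1, HW_low hext hw ω v J h1]
    · by_cases h2 : p.length < B
      · exact absurd rfl (hp ⟨p, by omega, h2⟩)
      · rw [HL_ge (by omega), HL_ge (by omega)]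

theorem rt_eq {j m A B : ℕ} (hw : Wnd r j m A B) {ω : Lang} {v : Fin m → Bool}
    {J : Pos A B → Bool} {O O1 : Lang}
    (hO : IsClo ext X (HL ext X r B (chg2 (r j) m A B ω v J)) O)
    (hO1 : IsClo ext X (HL ext X r A ω) O1) : ∀ (t : ℕ) (cf : Config),
    rt (hv ext X r j m A B ω) (evv hext A B) (fun q => zb (O1 q)) nxC qdC v J t cf =
      (step O)^[t] cf := by
  intro t
  induction t with
  | zero => intro cf; rfl
  | succ t ih =>
    intro cf
    rw [rt, ih, ← ans_eq hext hw hO hO1, nxC_zb, Function.iterate_succ_apply]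

open Classical in
/-- **Masking for closed oracles.** -/
theorem win {j m A B : ℕ} (hw : Wnd r j m A B) (ω : Lang) {O1 : Lang}
    (hO1 : IsClo ext X (HL ext X r A ω) O1) (O : (Fin m → Bool) → (Pos A B → Bool) → Lang)
    (hO : ∀ v J, IsClo ext X (HL ext X r B (chg2 (r j) m A B ω v J)) (O v J))
    (Φ : Config → Prop) (t : ℕ) (cf : Config) :
    (∑ v : Fin m → Bool, ∑ J : Pos A B → Bool, if Φ ((step (O v J))^[t] cf) then (1 : ℝ) else 0) ≤
      Fintype.card (Pos A B → Bool) * (2 ^ m * avg t (fun z =>
        if Φ ((idD hext A B z cf []).eval O1) then 1 else 0) + t) := by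
  have h := main (fun c : Pos A B => c.1.length) (BlW r j m A B ω) (hv ext X r j m A B ω)
    (evv hext A B) (fun q => zb (O1 q)) nxC qdC (hyp_wnd hext hw ω) Φ t cf
  have e1 : (Fintype.card (Fin m → Bool) : ℝ) = 2 ^ m := by simp
  rw [e1] at h
  refine le_trans (le_of_eq ?_) (h.trans (le_of_eq ?_))
  · refine Finset.sum_congr rfl fun v _ => ?_
    unfold ff
    rw [Finset.card_filter, Nat.cast_sum]
    refine Finset.sum_congr rfl fun J _ => ?_
    rw [rt_eq hext hw (hO v J) hO1]
    by_cases hΦ : Φ ((step (O v J))^[t] cf)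
    · rw [if_pos hΦ, if_pos ⟨cons_nil _ _ _ _, hΦ⟩, Nat.cast_one]
    · rw [if_neg hΦ, if_neg fun hc => hΦ hc.2, Nat.cast_zero]
  · congr 3
    unfold pr
    congr 1
    funext z
    rw [idD_eval]

end

end Pool.Agent.APS
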